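import Pool.Agent.Hhelper14.HilbDefs

/-!
# Chart calculus on the Hilbert scheme of points
-/

open MvPolynomial

namespace Pool.Agent.HilbVC

universe u

variable {k : Type u} [Field k] {n d : ℕ}

/-- The basis of `S / I` given by a frame. -/
noncomputable def frameBasis {B : Fin d → MvPolynomial (Fin n) k}
    {I : Ideal (MvPolynomial (Fin n) k)} (h : IsFrame B I) :
    Module.Basis (Fin d) k (MvPolynomial (Fin n) k ⧸ I) := Module.Basis.mk h.1 h.2

theorem frameBasis_apply {B : Fin d → MvPolynomial (Fin n) k}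
    {I : Ideal (MvPolynomial (Fin n) k)} (h : IsFrame B I) (j : Fin d) :
    frameBasis h j = Ideal.Quotient.mk I (B j) := by
  simp [frameBasis]

theorem coord_eq {B : Fin d → MvPolynomial (Fin n) k}
    {I : Ideal (MvPolynomial (Fin n) k)} (h : IsFrame B I) (f : MvPolynomial (Fin n) k)
    (j : Fin d) : coord B I f j = (frameBasis h).repr (Ideal.Quotient.mk I f) j := by
  simp [coord, h, frameBasis]

/-- The chart coordinate as a linear functional on `S`. -/
noncomputable def coordL (B : Fin d → MvPolynomial (Fin n) k)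
    (I : Ideal (MvPolynomial (Fin n) k)) (j : Fin d) : MvPolynomial (Fin n) k →ₗ[k] k where
  toFun f := coord B I f j
  map_add' f g := by
    by_cases h : IsFrame B I
    · simp [coord_eq h]
    · simp [coord, h]
  map_smul' a f := by
    by_cases h : IsFrame B I
    · rw [coord_eq h, coord_eq h]
      have : Ideal.Quotient.mk I (a • f) = a • Ideal.Quotient.mk I f := rfl
      rw [this]
      simp
    · simp [coord, h]

@[simp] theorem coordL_apply (B : Fin d → MvPolynomial (Fin n) k)
    (I : Ideal (MvPolynomial (Fin n) k)) (j : Fin d) (f : MvPolynomial (Fin n) k) :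
    coordL B I j f = coord B I f j := rfl

theorem mem_iff_coord {B : Fin d → MvPolynomial (Fin n) k}
    {I : Ideal (MvPolynomial (Fin n) k)} (h : IsFrame B I) (f : MvPolynomial (Fin n) k) :
    f ∈ I ↔ ∀ j, coord B I f j = 0 := by
  rw [← Ideal.Quotient.eq_zero_iff_mem]
  constructor
  · intro hf j
    rw [coord_eq h, hf]; simp
  · intro hf
    apply (frameBasis h).repr.injective
    ext j
    rw [← coord_eq h, hf j]; simp

theorem coord_frame {B : Fin d → MvPolynomial (Fin n) k}
    {I : Ideal (MvPolynomial (Fin n) k)} (h : IsFrame B I) (i j : Fin d) :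
    coord B I (B i) j = if i = j then 1 else 0 := by
  rw [coord_eq h, ← frameBasis_apply h, Module.Basis.repr_self, Finsupp.single_apply]

/-- The frame criterion: an ideal cut out by functionals dual to `B` has `B` as a frame. -/
theorem frame_of_dual {B : Fin d → MvPolynomial (Fin n) k}
    {I : Ideal (MvPolynomial (Fin n) k)} (l : Fin d → (MvPolynomial (Fin n) k →ₗ[k] k))
    (hI : ∀ f, f ∈ I ↔ ∀ j, l j f = 0)
    (hB : ∀ i j, l j (B i) = if i = j then 1 else 0) :
    IsFrame B I := by
  constructor
  · rw [Fintype.linearIndependent_iff]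
    intro g hg j
    have h1 : (∑ i, g i • B i) ∈ I := by
      rw [← Ideal.Quotient.eq_zero_iff_mem, map_sum]
      exact hg
    have h2 := (hI _).1 h1 j
    simpa [hB] using h2
  · rintro x -
    obtain ⟨f, rfl⟩ := Ideal.Quotient.mk_surjective x
    have h1 : f - ∑ i, l i f • B i ∈ I := by
      rw [hI]
      intro j
      simp [hB]
    have h2 : Ideal.Quotient.mk I f = ∑ i, l i f • Ideal.Quotient.mk I (B i) := by
      rw [← Ideal.Quotient.eq_zero_iff_mem, map_sub, sub_eq_zero] at h1
      rw [h1, map_sum]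
      rfl
    rw [h2]
    exact Submodule.sum_mem _ fun i _ => Submodule.smul_mem _ _
      (Submodule.subset_span ⟨i, rfl⟩)

theorem coord_of_dual {B : Fin d → MvPolynomial (Fin n) k}
    {I : Ideal (MvPolynomial (Fin n) k)} (l : Fin d → (MvPolynomial (Fin n) k →ₗ[k] k))
    (hI : ∀ f, f ∈ I ↔ ∀ j, l j f = 0)
    (hB : ∀ i j, l j (B i) = if i = j then 1 else 0) (f : MvPolynomial (Fin n) k) (j : Fin d) :
    coord B I f j = l j f := by
  have hF := frame_of_dual l hI hB
  have h1 : f - ∑ i, l i f • B i ∈ I := by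
    rw [hI]
    intro j
    simp [hB]
  have h2 := (mem_iff_coord hF _).1 h1 j
  rw [← coordL_apply, map_sub, map_sum] at h2
  simp only [map_smul, coordL_apply, coord_frame hF, smul_eq_mul] at h2
  simp at h2
  exact sub_eq_zero.1 h2

theorem IsFrame.finite {B : Fin d → MvPolynomial (Fin n) k}
    {I : Ideal (MvPolynomial (Fin n) k)} (h : IsFrame B I) :
    Module.Finite k (MvPolynomial (Fin n) k ⧸ I) :=
  Module.Basis.finiteDimensional_of_finite (frameBasis h)

theorem IsFrame.finrank_eq {B : Fin d → MvPolynomial (Fin n) k}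
    {I : Ideal (MvPolynomial (Fin n) k)} (h : IsFrame B I) :
    Module.finrank k (MvPolynomial (Fin n) k ⧸ I) = d := by
  rw [Module.finrank_eq_card_basis (frameBasis h), Fintype.card_fin]

/-- The point of the Hilbert scheme given by an ideal with a frame. -/
def IsFrame.pt {B : Fin d → MvPolynomial (Fin n) k}
    {I : Ideal (MvPolynomial (Fin n) k)} (h : IsFrame B I) : HilbPt k n d :=
  ⟨I, h.finite, h.finrank_eq⟩

/-- Every point has a frame. -/
theorem exists_frame (I : HilbPt k n d) :
    ∃ B : Fin d → MvPolynomial (Fin n) k, IsFrame B I.ideal := by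
  have := I.finite
  let b := Module.finBasisOfFinrankEq k (MvPolynomial (Fin n) k ⧸ I.ideal) I.finrank_eq
  choose B hB using fun j => Ideal.Quotient.mk_surjective (b j)
  refine ⟨B, ?_, ?_⟩
  · simp_rw [hB]; exact b.linearIndependent
  · simp_rw [hB]; exact b.span_eq.ge

theorem frame_iff_det {B e : Fin d → MvPolynomial (Fin n) k}
    {I : Ideal (MvPolynomial (Fin n) k)} (h : IsFrame e I) :
    IsFrame B I ↔ (Matrix.of fun i j => coord e I (B i) j).det ≠ 0 := by
  have h1 := Module.Basis.is_basis_iff_det (frameBasis h)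
    (v := fun j => Ideal.Quotient.mk I (B j))
  rw [Module.Basis.det_apply, isUnit_iff_ne_zero] at h1
  have h2 : (frameBasis h).toMatrix (fun j => Ideal.Quotient.mk I (B j)) =
      (Matrix.of fun i j => coord e I (B i) j).transpose := by
    ext i j
    simp [Module.Basis.toMatrix_apply, coord_eq h]
  rw [h2, Matrix.det_transpose] at h1
  rw [← h1, IsFrame]
  refine and_congr Iff.rfl ?_
  exact ⟨fun h => eq_top_iff.2 h, fun h => h.ge⟩

theorem coord_change {B e : Fin d → MvPolynomial (Fin n) k}
    {I : Ideal (MvPolynomial (Fin n) k)} (h : IsFrame e I) (hB : IsFrame B I)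
    (f : MvPolynomial (Fin n) k) (j : Fin d) :
    (Matrix.of fun i j => coord e I (B i) j).det * coord B I f j =
      ∑ i, coord e I f i * (Matrix.of fun i j => coord e I (B i) j).adjugate i j := by
  set c := (Matrix.of fun i j => coord e I (B i) j) with hc
  have h1 : f - ∑ i, coord B I f i • B i ∈ I := by
    rw [mem_iff_coord hB]
    intro j
    rw [← coordL_apply, map_sub, map_sum]
    simp [coord_frame hB]
  have h2 : ∀ j, coord e I f j = ∑ i, coord B I f i * c i j := by
    intro j
    have h3 := (mem_iff_coord h _).1 h1 j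
    rw [← coordL_apply, map_sub, map_sum] at h3
    simp only [map_smul, coordL_apply, smul_eq_mul] at h3
    rw [sub_eq_zero] at h3
    rw [h3]
    rfl
  have h3 : (fun j => coord e I f j) = Matrix.vecMul (fun i => coord B I f i) c := by
    ext j
    rw [h2 j]
    simp [Matrix.vecMul, dotProduct]
  have h4 : Matrix.vecMul (fun j => coord e I f j) c.adjugate =
      c.det • (fun i => coord B I f i) := by
    rw [h3, Matrix.vecMul_vecMul, Matrix.mul_adjugate, Matrix.vecMul_smul, Matrix.vecMul_one]
  have h5 := congrFun h4 j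
  simp only [Matrix.vecMul, dotProduct, Pi.smul_apply, smul_eq_mul] at h5
  exact h5.symm

section continuity

variable {Y : Type*} (O : Subalgebra k (Y → k))

theorem det_mem {m : ℕ} (c : Y → Matrix (Fin m) (Fin m) k)
    (hc : ∀ i j, (fun y => c y i j) ∈ O) : (fun y => (c y).det) ∈ O := by
  have : (fun y => (c y).det) = ∑ σ : Equiv.Perm (Fin m),
      ((Equiv.Perm.sign σ : ℤ) : k) • ∏ i, (fun y => c y (σ i) i) := by
    ext y
    rw [Matrix.det_apply']
    simp
  rw [this]
  exact Subalgebra.sum_mem _ fun σ _ => Subalgebra.smul_mem _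
    (Subalgebra.prod_mem _ fun i _ => hc _ _) _

theorem adjugate_mem {m : ℕ} (c : Y → Matrix (Fin m) (Fin m) k)
    (hc : ∀ i j, (fun y => c y i j) ∈ O) (i j : Fin m) :
    (fun y => (c y).adjugate i j) ∈ O := by
  have : (fun y => (c y).adjugate i j) =
      fun y => ((c y).updateRow j (Pi.single i 1)).det := by
    ext y
    rw [Matrix.adjugate_apply]
  rw [this]
  apply det_mem
  intro a b
  by_cases h : a = j
  · subst h
    simp only [Matrix.updateRow_self]
    exact Subalgebra.algebraMap_mem O ((Pi.single i (1 : k) : Fin m → k) b)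
  · simp only [Matrix.updateRow_ne h]
    exact hc a b

/-- Clearing denominators in a polynomial evaluated at fractions with denominator `δ`. -/
theorem exists_clear {σ : Type*} (δ : Y → k) (hδ : δ ∈ O) (a h : Y → σ → k)
    (hh : ∀ q, (fun y => h y q) ∈ O) (ha : ∀ y, δ y ≠ 0 → ∀ q, δ y * a y q = h y q)
    (P : MvPolynomial σ k) :
    ∃ N : ℕ, ∃ G ∈ O, ∀ y, δ y ≠ 0 → G y = δ y ^ N * MvPolynomial.eval (a y) P := by
  induction P using MvPolynomial.induction_on with
  | C c =>
    exact ⟨0, fun _ => c, Subalgebra.algebraMap_mem O c, fun y _ => by simp⟩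
  | add p q hp hq =>
    obtain ⟨N1, G1, hG1, h1⟩ := hp
    obtain ⟨N2, G2, hG2, h2⟩ := hq
    refine ⟨N1 + N2, δ ^ N2 * G1 + δ ^ N1 * G2, Subalgebra.add_mem _
      (Subalgebra.mul_mem _ (Subalgebra.pow_mem _ hδ _) hG1)
      (Subalgebra.mul_mem _ (Subalgebra.pow_mem _ hδ _) hG2), fun y hy => ?_⟩
    simp only [Pi.add_apply, Pi.mul_apply, Pi.pow_apply, h1 y hy, h2 y hy, map_add]
    ring
  | mul_X p q hp =>
    obtain ⟨N, G, hG, h1⟩ := hp
    refine ⟨N + 1, G * fun y => h y q, Subalgebra.mul_mem _ hG (hh q), fun y hy => ?_⟩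
    simp only [Pi.mul_apply, h1 y hy, map_mul, eval_X, ← ha y hy q]
    ring

/-- The pointwise continuity lemma: a map `ι : Y → Hilb` is continuous as soon as it has a (moving)
frame in which all chart coordinates are regular functions on `Y`. -/
theorem continuous_of_regular [TopologicalSpace Y]
    (hO : ∀ g ∈ O, IsOpen {y | g y ≠ 0})
    (ι : Y → HilbPt k n d) (e : Y → Fin d → MvPolynomial (Fin n) k)
    (he : ∀ y, IsFrame (e y) (ι y).ideal)
    (hc : ∀ f j, (fun y => coord (e y) (ι y).ideal f j) ∈ O) : Continuous ι := by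
  rw [continuous_generateFrom_iff]
  rintro _ ⟨B, P, rfl⟩
  let c : Y → Matrix (Fin d) (Fin d) k := fun y =>
    Matrix.of fun i j => coord (e y) (ι y).ideal (B i) j
  have hcm : ∀ i j, (fun y => c y i j) ∈ O := fun i j => hc (B i) j
  have hδ : (fun y => (c y).det) ∈ O := det_mem O c hcm
  obtain ⟨N, G, hG, h1⟩ := exists_clear O (fun y => (c y).det) hδ
    (fun y q => coord B (ι y).ideal q.1 q.2)
    (fun y q => ∑ i, coord (e y) (ι y).ideal q.1 i * (c y).adjugate i q.2)
    (fun q => by
      have : (fun y => ∑ i, coord (e y) (ι y).ideal q.1 i * (c y).adjugate i q.2) =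
        ∑ i, (fun y => coord (e y) (ι y).ideal q.1 i) * (fun y => (c y).adjugate i q.2) := by
        ext y; simp
      rw [this]
      exact Subalgebra.sum_mem _ fun i _ => Subalgebra.mul_mem _ (hc _ _)
        (adjugate_mem O c hcm _ _))
    (fun y hy q => coord_change (he y) ((frame_iff_det (he y)).2 hy) q.1 q.2) P
  have : ι ⁻¹' basicOpen B P = {y | ((fun y => (c y).det) * G) y ≠ 0} := by
    ext y
    simp only [basicOpen, Set.mem_preimage, Set.mem_ofPred_eq, Pi.mul_apply]
    rw [frame_iff_det (he y)]
    constructor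
    · rintro ⟨h2, h3⟩
      rw [h1 y h2]
      exact mul_ne_zero h2 (mul_ne_zero (pow_ne_zero _ h2) h3)
    · intro h2
      have h3 : (c y).det ≠ 0 := left_ne_zero_of_mul h2
      refine ⟨h3, ?_⟩
      rw [h1 y h3] at h2
      exact right_ne_zero_of_mul (right_ne_zero_of_mul h2)
  rw [this]
  exact hO _ (Subalgebra.mul_mem _ hδ hG)

end continuity

end Pool.Agent.HilbVC
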