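import Pool.Agent.Hhelper14.HilbTrans

/-!
# The very compressed locus is not dense in a component when `n (c + 1) < dim S_(s+1)`
-/

open MvPolynomial TopologicalSpace

namespace Pool.Agent.HilbVC

universe u

variable {k : Type u} [Field k] {n d : ℕ}

theorem choose_eq_multichoose (n i : ℕ) (hn : 1 ≤ n) :
    (i + n - 1).choose (n - 1) = n.multichoose i := by
  rw [Nat.multichoose_eq, ← Nat.choose_symm (by omega)]
  congr 1 <;> omega

theorem choose_mono_s {n s s' : ℕ} (hn : 1 ≤ n) (h : s' < s) :
    (n + s').choose n ≤ (n + s - 1).choose n :=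
  Nat.choose_le_choose _ (by omega)

theorem vc_struct (s : ℕ) (hn : 1 ≤ n) (h1 : (n + s - 1).choose n < d)
    (h2 : d ≤ (n + s).choose n) (I : HilbPt k n d) (hI : I ∈ veryCompressed k n d) :
    ∃ (v : Fin n → k) (W : Submodule k (MvPolynomial (Fin n) k)),
      W ≤ homogeneousSubmodule (Fin n) k s ∧
      Module.finrank k W + (d - (n + s - 1).choose n) = n.multichoose s ∧
      I.ideal = pull (shift v) (stdIdeal s W) := by
  obtain ⟨s', h3, h4, v, hrad, hlt, heq, hgt⟩ := hI
  have hss : s' = s := by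
    rcases lt_trichotomy s' s with h | h | h
    · have := choose_mono_s hn h
      omega
    · exact h
    · have := choose_mono_s hn h
      omega
  subst hss
  have hpull : pull (shift v).symm (maxIdeal v) = maxIdeal 0 := by
    have := pull_shift_maxIdeal v 0
    rw [zero_add] at this
    rw [← this, pull_symm_pull]
  have hrad' : (pull (shift v).symm I.ideal).radical = maxIdeal 0 := by
    rw [pull_radical, hrad, hpull]
  have hH : ∀ i, hilbertFn (pull (shift v).symm I.ideal) 0 i = hilbertFn I.ideal v i :=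
    fun i => hilbertFn_pull _ _ 0 v hpull i
  obtain ⟨W, hW1, hW2, hW3⟩ := exists_eq_stdIdeal (pull (shift v).symm I.ideal) s'
    (d - (n + s' - 1).choose n) hrad'
    (fun i hi => by rw [hH, hlt i hi, choose_eq_multichoose n i hn])
    (by rw [hH, heq]) (fun i hi => by rw [hH, hgt i hi])
  exact ⟨v, W, hW1, hW2, by rw [← hW3, pull_pull_symm]⟩

theorem vc_of_std (s : ℕ) (hn : 1 ≤ n) (hs : 1 ≤ s) (h1 : (n + s - 1).choose n < d)
    (h2 : d ≤ (n + s).choose n) (I : HilbPt k n d) (v : Fin n → k)
    (W : Submodule k (MvPolynomial (Fin n) k)) (hW : W ≤ homogeneousSubmodule (Fin n) k s)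
    (hr : Module.finrank k W + (d - (n + s - 1).choose n) = n.multichoose s)
    (hI : I.ideal = pull (shift v) (stdIdeal s W)) : I ∈ veryCompressed k n d := by
  have hpull : pull (shift v) (maxIdeal 0) = maxIdeal v := by
    rw [pull_shift_maxIdeal, zero_add]
  have hH : ∀ i, hilbertFn I.ideal v i = hilbertFn (stdIdeal s W) 0 i := by
    intro i
    rw [hI]
    exact hilbertFn_pull _ _ v 0 hpull i
  refine ⟨s, h1, h2, v, ?_, fun i hi => ?_, ?_, fun i hi => ?_⟩
  · rw [hI, pull_radical, stdIdeal_radical s hs, hpull]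
  · rw [hH, stdIdeal_hilbertFn_lt s W i hi, choose_eq_multichoose n i hn]
  · rw [hH, stdIdeal_hilbertFn_eq s _ W hW hr]
  · rw [hH, stdIdeal_hilbertFn_gt s W i hi]

/-- A functional on `S` killing `x_i W` and `x_i D` but not all of `S_(s+1)`. -/
theorem exists_functional (s c : ℕ) (W : Submodule k (MvPolynomial (Fin n) k))
    (hWfin : Module.Finite k W) (hc : Module.finrank k W ≤ c) (D : MvPolynomial (Fin n) k)
    (h : n * (c + 1) < n.multichoose (s + 1)) :
    ∃ Φ : MvPolynomial (Fin n) k →ₗ[k] k, (∀ i, ∀ g ∈ W, Φ (X i * g) = 0) ∧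
      (∀ i, Φ (X i * D) = 0) ∧ ∃ g ∈ homogeneousSubmodule (Fin n) k (s + 1), Φ g ≠ 0 := by
  let L : Submodule k (MvPolynomial (Fin n) k) := W ⊔ Submodule.span k {D}
  have hLfin : Module.Finite k L := by
    have : Module.Finite k (Submodule.span k {D}) := inferInstance
    exact Submodule.finite_sup _ _
  have hL : Module.finrank k L ≤ c + 1 := by
    refine (Submodule.finrank_add_le_finrank_add_finrank W (Submodule.span k {D})).trans ?_
    have := finrank_span_le_card (R := k) ({D} : Set (MvPolynomial (Fin n) k))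
    simp only [Set.toFinset_singleton, Finset.card_singleton] at this
    omega
  let T : (Fin n → L) →ₗ[k] MvPolynomial (Fin n) k :=
    ∑ i, (LinearMap.mulLeft k (X i)).comp (L.subtype.comp (LinearMap.proj i))
  have hT : ∀ i (g : L), T (Pi.single i g) = X i * (g : MvPolynomial (Fin n) k) := by
    intro i g
    simp only [T, LinearMap.sum_apply, LinearMap.comp_apply, LinearMap.proj_apply,
      LinearMap.mulLeft_apply, Submodule.subtype_apply]
    rw [Finset.sum_eq_single i]
    · rw [Pi.single_eq_same]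
    · intro j _ hj
      rw [Pi.single_eq_of_ne hj]
      simp
    · simp
  have hrange : Module.finrank k (LinearMap.range T) ≤ n * (c + 1) := by
    refine (LinearMap.finrank_range_le T).trans ?_
    rw [Module.finrank_pi_fintype]
    simp only [Finset.sum_const, Finset.card_univ, Fintype.card_fin, smul_eq_mul]
    exact Nat.mul_le_mul_left n hL
  have hnot : ¬ (homogeneousSubmodule (Fin n) k (s + 1) ≤ LinearMap.range T) := by
    intro hle
    have h1 := Submodule.finrank_mono hle
    rw [finrank_homog] at h1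
    omega
  obtain ⟨g, hg1, hg2⟩ := Set.not_subset.1 hnot
  obtain ⟨Φ, h1, h2⟩ := Submodule.exists_le_ker_of_notMem hg2
  refine ⟨Φ, fun i g hg => ?_, fun i => ?_, g, hg1, h1⟩
  · have : X i * g ∈ LinearMap.range T :=
      ⟨Pi.single i ⟨g, Submodule.mem_sup_left hg⟩, by rw [hT]⟩
    exact h2 this
  · have : X i * D ∈ LinearMap.range T :=
      ⟨Pi.single i ⟨D, Submodule.mem_sup_right (Submodule.mem_span_singleton_self D)⟩,
        by rw [hT]⟩
    exact h2 this

theorem closure_subset_suppPow (s : ℕ) (hn : 1 ≤ n) (h1 : (n + s - 1).choose n < d)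
    (h2 : d ≤ (n + s).choose n) (hd : (d : k) ≠ 0) :
    closure (veryCompressed k n d) ⊆ suppPow k n d (s + 1) := by
  refine closure_minimal ?_ (isClosed_suppPow (s + 1) hd)
  intro I hI
  obtain ⟨v, W, -, -, h3⟩ := vc_struct s hn h1 h2 I hI
  refine ⟨v, ?_⟩
  have h4 : pull (shift v) (maxIdeal 0) = maxIdeal v := by
    rw [pull_shift_maxIdeal, zero_add]
  rw [h3, ← h4, ← pull_pow]
  exact pull_mono _ (pow_le_stdIdeal s W)

/-- Main step: non-density in a component. -/
theorem closure_notMem_components [Infinite k] (s r c : ℕ) (hn : 1 ≤ n) (hs : 1 ≤ s)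
    (hr : 1 ≤ r) (hcr : c + r = n.multichoose s) (hdr : d = (n + s - 1).choose n + r)
    (hd : (d : k) ≠ 0) (hnc : n * (c + 1) < n.multichoose (s + 1)) :
    closure (veryCompressed k n d) ∉ irreducibleComponents (HilbPt k n d) := by
  have hpascal : (n + s - 1).choose n + n.multichoose s = (n + s).choose n := by
    rw [← card_degLt' n s hn, ← (by simpa using card_degLt' n (s + 1) hn :
      Fintype.card (DegLt n (s + 1)) = (n + s).choose n), card_degLt, card_degLt,
      Finset.sum_range_succ]
  have h1 : (n + s - 1).choose n < d := by omega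
  have h2 : d ≤ (n + s).choose n := by omega
  intro hcomp
  obtain ⟨U, hUo, hUne, hUsub⟩ := exists_open_subset_component _ hcomp
  obtain ⟨A, hAU⟩ := hUne
  obtain ⟨A0, hA0U, hA0⟩ := mem_closure_iff.1 (hUsub hAU) U hUo hAU
  obtain ⟨v, W, hW, hWr, hA0I⟩ := vc_struct s hn h1 h2 A0 hA0
  have hWc : Module.finrank k W = c := by omega
  have hWfin : Module.Finite k W := Submodule.finiteDimensional_of_le hW
  -- choose `D`
  have hnle : ¬ (homogeneousSubmodule (Fin n) k s ≤ W) := by
    intro hle
    have h3 := Submodule.finrank_mono hle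
    rw [finrank_homog] at h3
    omega
  obtain ⟨D, hD1, hD2⟩ := Set.not_subset.1 hnle
  -- choose `Φ`
  obtain ⟨Φ, hΦW, hΦD, g, hg, hΦg⟩ := exists_functional s c W hWfin hWc.le D hnc
  have hrr : Module.finrank k W + r = n.multichoose s := by omega
  obtain ⟨b, β, hb, hβ, hβb⟩ := exists_dual s r W hW hrr
  have hcard : Fintype.card (DegLt n s ⊕ Fin r) = d := by
    rw [Fintype.card_sum, card_degLt' n s hn, Fintype.card_fin, hdr]
  let e : Fin d ≃ DegLt n s ⊕ Fin r := (Fintype.equivFinOfCardEq hcard).symm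
  have hΦW' : ∀ t : k, ∀ i, ∀ g ∈ W, (t • Φ) (X i * g) = 0 := fun t i g hg => by
    rw [LinearMap.smul_apply, hΦW i g hg, smul_zero]
  have hΦD' : ∀ t : k, ∀ i, (t • Φ) (X i * D) = 0 := fun t i => by
    rw [LinearMap.smul_apply, hΦD i, smul_zero]
  have hF : ∀ t : k, IsFrame (stdFrame e b) (defIdeal s W D (t • Φ) (hΦW' t) (hΦD' t)) :=
    fun t => isFrame_defIdeal hD1 (hΦW' t) (hΦD' t) hb hβ hβb
  -- the path
  let γ0 : CofiniteTopology k → HilbPt k n d := fun y => (hF (CofiniteTopology.of.symm y)).pt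
  have hγ0 : Continuous γ0 := by
    refine continuous_path γ0 (fun _ => stdFrame e b) (fun y => hF _) ?_
    intro f j
    have hcoord : ∀ t : k, coord (stdFrame e b) (defIdeal s W D (t • Φ) (hΦW' t) (hΦD' t)) f j =
        stdDual e β D (t • Φ) j f :=
      fun t => coord_defIdeal hD1 (hΦW' t) (hΦD' t) hb hβ hβb f j
    rcases he : e j with α | i
    · refine ⟨Polynomial.C (coeff α.1 f), fun y => ?_⟩
      change coord (stdFrame e b) (defIdeal s W D _ (hΦW' _) (hΦD' _)) f j = _
      rw [hcoord, stdDual, he, Polynomial.eval_C]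
      rfl
    · refine ⟨Polynomial.C (β i (homogeneousComponent s f)) +
        Polynomial.X * Polynomial.C (Φ (homogeneousComponent (s + 1) f) * β i D), fun y => ?_⟩
      change coord (stdFrame e b) (defIdeal s W D _ (hΦW' _) (hΦD' _)) f j = _
      rw [hcoord, stdDual, he]
      simp only [Sum.elim_inr, LinearMap.comp_apply, LinearMap.add_apply,
        LinearMap.smulRight_apply, LinearMap.smul_apply, map_add, map_smul, smul_eq_mul,
        Polynomial.eval_add, Polynomial.eval_mul, Polynomial.eval_C, Polynomial.eval_X]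
      ring
  let γ : CofiniteTopology k → HilbPt k n d := fun y => transport (shift v) (γ0 y)
  have hγ : Continuous γ := (continuous_transport (shift v)).comp hγ0
  have hγ_zero : γ (CofiniteTopology.of 0) = A0 := by
    apply HilbPt.ext'
    rw [hA0I]
    change pull (shift v) (defIdeal s W D _ (hΦW' _) (hΦD' _)) = _
    congr 1
    ext f
    rw [mem_defIdeal, mem_stdIdeal]
    simp
  -- a parameter `t ≠ 0` with `γ t ∈ U`
  obtain ⟨t, ht0, htU⟩ : ∃ t : k, t ≠ 0 ∧ γ (CofiniteTopology.of t) ∈ U := by
    have h3 : IsOpen (γ ⁻¹' U) := hUo.preimage hγ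
    rw [CofiniteTopology.isOpen_iff'] at h3
    rcases h3 with h3 | h3
    · exfalso
      have : CofiniteTopology.of (0 : k) ∈ γ ⁻¹' U := by
        rw [Set.mem_preimage, hγ_zero]; exact hA0U
      rw [h3] at this
      exact this
    · have h4 : ((γ ⁻¹' U)ᶜ ∪ {CofiniteTopology.of (0 : k)}).Finite :=
        h3.union (Set.finite_singleton _)
      have hinf : Infinite (CofiniteTopology k) := (CofiniteTopology.of (X := k)).symm.infinite_iff.2 ‹_›
      obtain ⟨y, hy⟩ := h4.exists_notMem
      rw [Set.mem_union, not_or, Set.mem_compl_iff, not_not] at hy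
      exact ⟨CofiniteTopology.of.symm y, fun h => hy.2 (by
        rw [Set.mem_singleton_iff, ← h]; simp), by simpa using hy.1⟩
  -- contradiction
  obtain ⟨v', hv'⟩ := closure_subset_suppPow s hn h1 h2 hd (hUsub htU)
  have h3 : (maxIdeal v') ^ (s + 1) ≤
      pull (shift v) (defIdeal s W D (t • Φ) (hΦW' t) (hΦD' t)) := hv'
  have h4 : (maxIdeal (v' - v)) ^ (s + 1) ≤ defIdeal s W D (t • Φ) (hΦW' t) (hΦD' t) := by
    have h5 := pull_mono (shift v).symm h3
    rw [pull_symm_pull, pull_pow] at h5
    have h6 : pull (shift v).symm (maxIdeal v') = maxIdeal (v' - v) := by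
      have := pull_shift_maxIdeal v (v' - v)
      rw [sub_add_cancel] at this
      rw [← this, pull_symm_pull]
    rwa [h6] at h5
  have h5 : defIdeal s W D (t • Φ) (hΦW' t) (hΦD' t) ≤ maxIdeal 0 := by
    intro f hf
    have h6 : f ∈ (maxIdeal (0 : Fin n → k)) ^ 1 := by
      rw [mem_pow_iff]
      intro i hi
      exact hf.1 i (by omega)
    rwa [pow_one] at h6
  have h6 : maxIdeal (v' - v) ≤ maxIdeal 0 := by
    intro f hf
    exact (inferInstance : (maxIdeal (0 : Fin n → k)).IsPrime).mem_of_pow_mem _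
      (h5 (h4 (Ideal.pow_mem_pow hf (s + 1))))
  rw [maxIdeal_le_iff] at h6
  rw [h6] at h4
  have h7 := h4 (homog_mem_pow (s + 1) g hg)
  rw [mem_defIdeal] at h7
  have h8 := h7.2
  rw [homogeneousComponent_of_mem hg, if_neg (by omega), homogeneousComponent_of_mem hg,
    if_pos rfl, zero_add, LinearMap.smul_apply, smul_eq_mul] at h8
  exact hD2 ((Submodule.smul_mem_iff W (mul_ne_zero ht0 hΦg)).1 h8)

end Pool.Agent.HilbVC
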