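import Mathlib

/-!
# Closed points of the Hilbert scheme of points of affine space, and the very compressed locus

Throughout `k` is a field, `S = k[x_1, ..., x_n] = MvPolynomial (Fin n) k`.
-/

open MvPolynomial

namespace Pool.Agent.HilbVC

universe u

/-- The closed (`k`-rational) points of `Hilb_d(𝔸ⁿ)`: ideals `I ⊆ k[x_1, ..., x_n]` with
`dim_k k[x_1, ..., x_n] / I = d`. -/
structure HilbPt (k : Type u) [Field k] (n d : ℕ) where
  /-- the ideal of the finite subscheme -/
  ideal : Ideal (MvPolynomial (Fin n) k)
  /-- the quotient is finite-dimensional ... -/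
  finite : Module.Finite k (MvPolynomial (Fin n) k ⧸ ideal)
  /-- ... of dimension `d` -/
  finrank_eq : Module.finrank k (MvPolynomial (Fin n) k ⧸ ideal) = d

variable {k : Type u} [Field k] {n d : ℕ}

/-- `B_1, ..., B_d` is a *frame* of `S / I`: the classes of the polynomials `B_j` form a `k`-basis
of `S / I`. The points `I` with this property form the standard affine chart `U_B` of
`Hilb_d(𝔸ⁿ)`. -/
def IsFrame (B : Fin d → MvPolynomial (Fin n) k) (I : Ideal (MvPolynomial (Fin n) k)) : Prop :=
  LinearIndependent k (fun j => Ideal.Quotient.mk I (B j)) ∧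
    ⊤ ≤ Submodule.span k (Set.range fun j => Ideal.Quotient.mk I (B j))

open Classical in
/-- The chart coordinates: for `I` in the chart `U_B` and `f ∈ S`, the scalars `coord B I f j`
are the unique ones with `f ≡ ∑ j, coord B I f j • B_j` modulo `I` (junk value `0` off the chart). -/
noncomputable def coord (B : Fin d → MvPolynomial (Fin n) k) (I : Ideal (MvPolynomial (Fin n) k))
    (f : MvPolynomial (Fin n) k) (j : Fin d) : k :=
  if h : IsFrame B I then (Module.Basis.mk h.1 h.2).repr (Ideal.Quotient.mk I f) j else 0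

/-- The principal open subset `{P ≠ 0}` of the chart `U_B`, where `P` is a polynomial in the chart
coordinates `a_{f,j}` (`f ∈ S`, `j < d`). -/
def basicOpen (B : Fin d → MvPolynomial (Fin n) k)
    (P : MvPolynomial (MvPolynomial (Fin n) k × Fin d) k) : Set (HilbPt k n d) :=
  {I | IsFrame B I.ideal ∧ MvPolynomial.eval (fun q => coord B I.ideal q.1 q.2) P ≠ 0}

/-- The Zariski topology on the set of closed points of `Hilb_d(𝔸ⁿ)`: the sets
`U_B = {I : B is a basis of S / I}` are affine open charts, whose coordinate rings are generated by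
the functions `a_{f,j}`, and so the principal open subsets of the charts form a basis of the
Zariski topology. -/
instance : TopologicalSpace (HilbPt k n d) :=
  TopologicalSpace.generateFrom {U | ∃ B P, U = basicOpen B P}

/-- The smoothable component: the closure of the locus of reduced subschemes. -/
def smoothable (k : Type u) [Field k] (n d : ℕ) : Set (HilbPt k n d) :=
  closure {I | I.ideal.IsRadical}

/-- The maximal ideal `𝔪_v = (x_1 - v_1, ..., x_n - v_n)` of the point `v ∈ 𝔸ⁿ(k)`. -/
noncomputable def maxIdeal (v : Fin n → k) : Ideal (MvPolynomial (Fin n) k) :=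
  Ideal.span (Set.range fun i => X i - C (v i))

/-- The powers `𝔪^i A` of the maximal ideal `𝔪 = 𝔪_v` in `A = S / I`, as `k`-subspaces of `A`. -/
noncomputable def maxPow (I : Ideal (MvPolynomial (Fin n) k)) (v : Fin n → k) (i : ℕ) :
    Submodule k (MvPolynomial (Fin n) k ⧸ I) :=
  (((maxIdeal v).map (Ideal.Quotient.mk I)) ^ i).restrictScalars k

/-- The Hilbert function `H_A(i) = dim_k 𝔪^i A / 𝔪^(i+1) A` of `A = S / I` at the point `v`,
`𝔪 = 𝔪_v`. -/
noncomputable def hilbertFn (I : Ideal (MvPolynomial (Fin n) k)) (v : Fin n → k) (i : ℕ) : ℕ :=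
  Module.finrank k (maxPow I v i ⧸ (maxPow I v (i + 1)).submoduleOf (maxPow I v i))

/-- The very compressed locus `VC_{n,d}` (supported at an arbitrary point `v`): the ideals `I`
with `√I = 𝔪_v` and Hilbert function `H(i) = binom(i+n-1, n-1)` for `i < s`,
`H(s) = d - binom(n+s-1, n)` and `H(i) = 0` for `i > s`, where `s` is the integer with
`binom(n+s-1, n) < d ≤ binom(n+s, n)`. -/
def veryCompressed (k : Type u) [Field k] (n d : ℕ) : Set (HilbPt k n d) :=
  {I | ∃ s : ℕ, (n + s - 1).choose n < d ∧ d ≤ (n + s).choose n ∧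
    ∃ v : Fin n → k, I.ideal.radical = maxIdeal v ∧
      (∀ i < s, hilbertFn I.ideal v i = (i + n - 1).choose (n - 1)) ∧
      hilbertFn I.ideal v s = d - (n + s - 1).choose n ∧
      (∀ i > s, hilbertFn I.ideal v i = 0)}

end Pool.Agent.HilbVC
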