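import Pool.Agent.Hhelper14.HilbGraded

/-!
# Frames of the deformed very compressed ideals, and the deformation path
-/

open MvPolynomial TopologicalSpace

namespace Pool.Agent.HilbVC

universe u

variable {k : Type u} [Field k] {n d : ℕ}

/-- Functionals and vectors dual to a subspace `W` of `S_s`. -/
theorem exists_dual (s r : ℕ) (W : Submodule k (MvPolynomial (Fin n) k))
    (hW : W ≤ homogeneousSubmodule (Fin n) k s)
    (hr : Module.finrank k W + r = n.multichoose s) :
    ∃ (b : Fin r → MvPolynomial (Fin n) k) (β : Fin r → (MvPolynomial (Fin n) k →ₗ[k] k)),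
      (∀ i, b i ∈ homogeneousSubmodule (Fin n) k s) ∧
      (∀ g ∈ homogeneousSubmodule (Fin n) k s, g ∈ W ↔ ∀ i, β i g = 0) ∧
      (∀ i j, β j (b i) = if i = j then 1 else 0) := by
  set H := homogeneousSubmodule (Fin n) k s with hH
  let W' : Submodule k H := W.submoduleOf H
  have h1 : Module.finrank k W' = Module.finrank k W :=
    (Submodule.submoduleOfEquivOfLe hW).finrank_eq
  have h2 : Module.finrank k (H ⧸ W') = r := by
    have h3 := Submodule.finrank_quotient_add_finrank W'
    rw [h1, finrank_homog] at h3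
    omega
  let q := Module.finBasisOfFinrankEq k (H ⧸ W') h2
  choose b hb using fun i => Submodule.mkQ_surjective W' (q i)
  let pr : MvPolynomial (Fin n) k →ₗ[k] H :=
    (homogeneousComponent s).codRestrict H (fun f => homogeneousComponent_mem s f)
  have hpr : ∀ g (hg : g ∈ H), pr g = ⟨g, hg⟩ := by
    intro g hg
    apply Subtype.ext
    change homogeneousComponent s g = g
    rw [homogeneousComponent_of_mem hg, if_pos rfl]
  refine ⟨fun i => b i, fun i => (q.coord i).comp (W'.mkQ.comp pr), fun i => (b i).2, ?_, ?_⟩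
  · intro g hg
    have h3 : g ∈ W ↔ W'.mkQ (pr g) = 0 := by
      rw [hpr g hg, Submodule.mkQ_apply, Submodule.Quotient.mk_eq_zero]
      rfl
    rw [h3]
    constructor
    · intro h i
      simp only [LinearMap.comp_apply]
      rw [h, map_zero]
    · intro h
      apply q.ext_elem
      intro i
      have := h i
      simp only [LinearMap.comp_apply, Module.Basis.coord_apply] at this
      rw [this]; simp
  · intro i j
    simp only [LinearMap.comp_apply, Module.Basis.coord_apply]
    rw [hpr _ (b i).2]
    change q.repr (W'.mkQ (b i)) j = _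
    rw [hb, Module.Basis.repr_self, Finsupp.single_apply]

/-- The frame of (deformed) very compressed ideals. -/
noncomputable def stdFrame {s r : ℕ} (e : Fin d ≃ DegLt n s ⊕ Fin r)
    (b : Fin r → MvPolynomial (Fin n) k) : Fin d → MvPolynomial (Fin n) k :=
  fun j => Sum.elim (fun α : DegLt n s => monomial α.1 1) b (e j)

/-- The dual functionals of the frame. -/
noncomputable def stdDual {s r : ℕ} (e : Fin d ≃ DegLt n s ⊕ Fin r)
    (β : Fin r → (MvPolynomial (Fin n) k →ₗ[k] k)) (D : MvPolynomial (Fin n) k)
    (Φ : MvPolynomial (Fin n) k →ₗ[k] k) (j : Fin d) : MvPolynomial (Fin n) k →ₗ[k] k :=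
  Sum.elim (fun α : DegLt n s => lcoeff k α.1)
    (fun i => (β i).comp (homogeneousComponent s +
      (Φ.comp (homogeneousComponent (s + 1))).smulRight D)) (e j)

theorem hc_low_iff (s : ℕ) (f : MvPolynomial (Fin n) k) :
    (∀ i < s, homogeneousComponent i f = 0) ↔ ∀ α : DegLt n s, coeff α.1 f = 0 := by
  constructor
  · rintro h ⟨α, hα⟩
    have := congrArg (coeff α) (h _ hα)
    rw [coeff_homogeneousComponent, if_pos rfl, coeff_zero] at this
    exact this
  · intro h i hi
    ext α
    rw [coeff_homogeneousComponent, coeff_zero]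
    split_ifs with h1
    · exact h ⟨α, by omega⟩
    · rfl

section

variable {s r : ℕ} {W : Submodule k (MvPolynomial (Fin n) k)}
  {D : MvPolynomial (Fin n) k}
  {Φ : MvPolynomial (Fin n) k →ₗ[k] k}
  {e : Fin d ≃ DegLt n s ⊕ Fin r}
  {b : Fin r → MvPolynomial (Fin n) k} {β : Fin r → (MvPolynomial (Fin n) k →ₗ[k] k)}

theorem mem_defIdeal_iff_dual
    (hDs : D ∈ homogeneousSubmodule (Fin n) k s)
    (hW : ∀ i, ∀ g ∈ W, Φ (X i * g) = 0) (hD : ∀ i, Φ (X i * D) = 0)
    (hβ : ∀ g ∈ homogeneousSubmodule (Fin n) k s, g ∈ W ↔ ∀ i, β i g = 0)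
    (f : MvPolynomial (Fin n) k) :
    f ∈ defIdeal s W D Φ hW hD ↔ ∀ j, stdDual e β D Φ j f = 0 := by
  rw [mem_defIdeal, hc_low_iff, hβ _ (Submodule.add_mem _ (homogeneousComponent_mem _ _)
    (Submodule.smul_mem _ _ hDs))]
  constructor
  · rintro ⟨h1, h2⟩ j
    rw [stdDual]
    rcases e j with α | i
    · exact h1 α
    · exact h2 i
  · intro h
    refine ⟨fun α => ?_, fun i => ?_⟩
    · have := h (e.symm (Sum.inl α))
      rw [stdDual, Equiv.apply_symm_apply] at this
      exact this
    · have := h (e.symm (Sum.inr i))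
      rw [stdDual, Equiv.apply_symm_apply] at this
      exact this

theorem stdDual_frame
    (hb : ∀ i, b i ∈ homogeneousSubmodule (Fin n) k s)
    (hβb : ∀ i j, β j (b i) = if i = j then 1 else 0) (i j : Fin d) :
    stdDual e β D Φ j (stdFrame e b i) = if i = j then 1 else 0 := by
  have key : ∀ (x y : DegLt n s ⊕ Fin r),
      (Sum.elim (fun α : DegLt n s => lcoeff k α.1)
        (fun i => (β i).comp (homogeneousComponent s +
          (Φ.comp (homogeneousComponent (s + 1))).smulRight D)) y)
        (Sum.elim (fun α : DegLt n s => monomial α.1 1) b x) =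
      (if x = y then (1 : k) else 0) := ?_
  · rw [stdDual, stdFrame, key]
    exact if_congr e.injective.eq_iff rfl rfl
  intro x y
  rcases x with α | a <;> rcases y with α' | a'
  · simp only [Sum.elim_inl, lcoeff_apply, coeff_monomial, Sum.inl.injEq, Subtype.ext_iff]
  · have h1 : homogeneousComponent s (monomial α.1 1 : MvPolynomial (Fin n) k) = 0 := by
      rw [homogeneousComponent_of_mem ((mem_homogeneousSubmodule _ _).2
        (isHomogeneous_monomial 1 rfl)), if_neg]
      have := α.2; omega
    have h2 : homogeneousComponent (s + 1) (monomial α.1 1 : MvPolynomial (Fin n) k) = 0 := by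
      rw [homogeneousComponent_of_mem ((mem_homogeneousSubmodule _ _).2
        (isHomogeneous_monomial 1 rfl)), if_neg]
      have := α.2; omega
    simp [h1, h2]
  · simp only [Sum.elim_inl, Sum.elim_inr, lcoeff_apply, reduceCtorEq, if_false]
    apply ((mem_homogeneousSubmodule _ _).1 (hb a)).coeff_eq_zero
    have := α'.2; omega
  · have h1 : homogeneousComponent s (b a) = b a := by
      rw [homogeneousComponent_of_mem (hb a), if_pos rfl]
    have h2 : homogeneousComponent (s + 1) (b a) = 0 := by
      rw [homogeneousComponent_of_mem (hb a), if_neg (by omega)]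
    simp only [Sum.elim_inr, LinearMap.comp_apply, LinearMap.add_apply, h1,
      LinearMap.smulRight_apply, h2, map_zero, zero_smul, add_zero, hβb, Sum.inr.injEq]

theorem isFrame_defIdeal
    (hDs : D ∈ homogeneousSubmodule (Fin n) k s)
    (hW : ∀ i, ∀ g ∈ W, Φ (X i * g) = 0) (hD : ∀ i, Φ (X i * D) = 0)
    (hb : ∀ i, b i ∈ homogeneousSubmodule (Fin n) k s)
    (hβ : ∀ g ∈ homogeneousSubmodule (Fin n) k s, g ∈ W ↔ ∀ i, β i g = 0)
    (hβb : ∀ i j, β j (b i) = if i = j then 1 else 0) :
    IsFrame (stdFrame e b) (defIdeal s W D Φ hW hD) :=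
  frame_of_dual (stdDual e β D Φ) (mem_defIdeal_iff_dual hDs hW hD hβ) (stdDual_frame hb hβb)

theorem coord_defIdeal
    (hDs : D ∈ homogeneousSubmodule (Fin n) k s)
    (hW : ∀ i, ∀ g ∈ W, Φ (X i * g) = 0) (hD : ∀ i, Φ (X i * D) = 0)
    (hb : ∀ i, b i ∈ homogeneousSubmodule (Fin n) k s)
    (hβ : ∀ g ∈ homogeneousSubmodule (Fin n) k s, g ∈ W ↔ ∀ i, β i g = 0)
    (hβb : ∀ i j, β j (b i) = if i = j then 1 else 0) (f : MvPolynomial (Fin n) k) (j : Fin d) :
    coord (stdFrame e b) (defIdeal s W D Φ hW hD) f j = stdDual e β D Φ j f :=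
  coord_of_dual (stdDual e β D Φ) (mem_defIdeal_iff_dual hDs hW hD hβ) (stdDual_frame hb hβb) f j

end

/-- Continuity of polynomial paths. -/
theorem continuous_path (ι : CofiniteTopology k → HilbPt k n d)
    (e : CofiniteTopology k → Fin d → MvPolynomial (Fin n) k)
    (he : ∀ y, IsFrame (e y) (ι y).ideal)
    (hc : ∀ f j, ∃ p : Polynomial k, ∀ y, coord (e y) (ι y).ideal f j =
      p.eval (CofiniteTopology.of.symm y)) : Continuous ι := by
  let A : Polynomial k →ₐ[k] (CofiniteTopology k → k) :=
    Polynomial.aeval (fun y => CofiniteTopology.of.symm y)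
  have hA : ∀ p y, A p y = p.eval (CofiniteTopology.of.symm y) := by
    intro p y
    induction p using Polynomial.induction_on' with
    | add p q hp hq => simp [hp, hq]
    | monomial m a => simp [A, Polynomial.aeval_monomial]
  refine continuous_of_regular A.range ?_ ι e he ?_
  · rintro _ ⟨p, rfl⟩
    rw [CofiniteTopology.isOpen_iff']
    by_cases hp : p = 0
    · left
      subst hp
      ext y
      simp
    · right
      have h1 : {y : CofiniteTopology k | A p y ≠ 0}ᶜ ⊆
          CofiniteTopology.of '' {t : k | p.eval t = 0} := by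
        intro y hy
        refine ⟨CofiniteTopology.of.symm y, ?_, by simp⟩
        have h2 : ¬ (A p y ≠ 0) := hy
        rw [not_not, hA] at h2
        exact h2
      refine Set.Finite.subset (Set.Finite.image _ ?_) h1
      classical
      exact (p.roots.toFinset.finite_toSet).subset fun t ht => by
        simp only [Finset.mem_coe, Multiset.mem_toFinset, Polynomial.mem_roots hp]
        exact ht
  · intro f j
    obtain ⟨p, hp⟩ := hc f j
    refine ⟨p, ?_⟩
    ext y
    rw [hp y]
    exact hA p y

end Pool.Agent.HilbVC
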