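import Pool.Agent.Hhelper14.HilbNoeth

/-!
# Graded pieces of the polynomial ring, and the deformed very compressed ideals
-/

open MvPolynomial

namespace Pool.Agent.HilbVC

universe u

variable {k : Type u} [Field k] {n d : ℕ}

/-- exponents of degree `i` -/
abbrev DegEq (n i : ℕ) : Type := {α : Fin n →₀ ℕ // α.degree = i}

/-- exponents of degree less than `s` -/
abbrev DegLt (n s : ℕ) : Type := {α : Fin n →₀ ℕ // α.degree < s}

theorem mem_antidiag (n i : ℕ) (α : Fin n →₀ ℕ) :
    α ∈ (Finset.univ : Finset (Fin n)).finsuppAntidiag i ↔ α.degree = i := by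
  rw [Finset.mem_finsuppAntidiag, Finsupp.degree_eq_sum]
  simp

noncomputable instance (n i : ℕ) : Fintype (DegEq n i) :=
  Fintype.ofEquiv ((Finset.univ : Finset (Fin n)).finsuppAntidiag i)
    (Equiv.subtypeEquivRight fun α => mem_antidiag n i α)

theorem card_degEq (n i : ℕ) : Fintype.card (DegEq n i) = n.multichoose i := by
  rw [Fintype.ofEquiv_card, Fintype.card_coe, Finset.card_finsuppAntidiag_nat_eq_multichoose]
  simp

/-- exponents of degree `< s` are graded by the degree -/
noncomputable def degLtEquiv (n s : ℕ) : DegLt n s ≃ Σ i : Fin s, DegEq n i where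
  toFun α := ⟨⟨α.1.degree, α.2⟩, ⟨α.1, rfl⟩⟩
  invFun β := ⟨β.2.1, by rw [β.2.2]; exact β.1.2⟩
  left_inv α := rfl
  right_inv := by
    rintro ⟨⟨i, hi⟩, ⟨α, hα⟩⟩
    dsimp only at hα
    subst hα
    rfl

noncomputable instance (n s : ℕ) : Fintype (DegLt n s) :=
  Fintype.ofEquiv _ (degLtEquiv n s).symm

theorem card_degLt (n s : ℕ) : Fintype.card (DegLt n s) =
    ∑ i ∈ Finset.range s, n.multichoose i := by
  rw [Fintype.card_congr (degLtEquiv n s), Fintype.card_sigma, ← Fin.sum_univ_eq_sum_range]
  exact Finset.sum_congr rfl fun i _ => card_degEq n i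

theorem card_degLt' (n s : ℕ) (hn : 1 ≤ n) : Fintype.card (DegLt n s) =
    (n + s - 1).choose n := by
  rw [card_degLt]
  cases s with
  | zero =>
    simp only [Finset.range_zero, Finset.sum_empty, Nat.add_zero]
    rw [Nat.choose_eq_zero_of_lt (by omega)]
  | succ s =>
    rw [Nat.sum_range_multichoose]
    congr 1
    omega

theorem finrank_homog (n i : ℕ) :
    Module.finrank k (homogeneousSubmodule (Fin n) k i) = n.multichoose i := by
  have h1 : homogeneousSubmodule (Fin n) k i = restrictSupport k {α | α.degree = i} := by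
    rw [homogeneousSubmodule_eq_finsupp_supported]
    rfl
  let b : Module.Basis (DegEq n i) k (restrictSupport k {α : Fin n →₀ ℕ | α.degree = i}) :=
    basisRestrictSupport k {α : Fin n →₀ ℕ | α.degree = i}
  rw [h1, Module.finrank_eq_card_basis b]
  exact card_degEq n i

instance (n i : ℕ) : Module.Finite k (homogeneousSubmodule (Fin n) k i) :=
  Module.Finite.iff_fg.2 (homogeneousSubmodule_fg (Fin n) k i)

/-- Multiplication by a variable shifts homogeneous components. -/
theorem hc_X_mul_succ (i : Fin n) (m : ℕ) (f : MvPolynomial (Fin n) k) :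
    homogeneousComponent (m + 1) (X i * f) = X i * homogeneousComponent m f := by
  induction f using MvPolynomial.induction_on' with
  | monomial e a =>
    have h1 : (X i * monomial e a : MvPolynomial (Fin n) k).IsHomogeneous (1 + e.degree) :=
      (isHomogeneous_X k i).mul (isHomogeneous_monomial a rfl)
    rw [homogeneousComponent_of_mem ((mem_homogeneousSubmodule _ _).2 h1),
      homogeneousComponent_of_mem ((mem_homogeneousSubmodule _ _).2
        (isHomogeneous_monomial a rfl))]
    by_cases h : m = e.degree
    · rw [if_pos (by omega), if_pos h]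
    · rw [if_neg (by omega), if_neg h, mul_zero]
  | add p q hp hq => rw [mul_add, map_add, map_add, hp, hq, mul_add]

theorem hc_X_mul_zero (i : Fin n) (f : MvPolynomial (Fin n) k) :
    homogeneousComponent 0 (X i * f) = 0 := by
  rw [homogeneousComponent_zero, coeff_X_mul', if_neg (by simp), map_zero]

theorem hc_hc (i j : ℕ) (f : MvPolynomial (Fin n) k) :
    homogeneousComponent i (homogeneousComponent j f) =
      if i = j then homogeneousComponent j f else 0 :=
  homogeneousComponent_of_mem (homogeneousComponent_mem j f)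

/-- The deformed very compressed ideal: polynomials `f` with `f_i = 0` for `i < s` and
`f_s + Φ(f_{s+1}) D ∈ W`, where `Φ` kills `x_i W` and `x_i D`. For `Φ = 0` this is
`W + 𝔪^(s+1)`. -/
def defIdeal (s : ℕ) (W : Submodule k (MvPolynomial (Fin n) k)) (D : MvPolynomial (Fin n) k)
    (Φ : MvPolynomial (Fin n) k →ₗ[k] k) (hW : ∀ i, ∀ g ∈ W, Φ (X i * g) = 0)
    (hD : ∀ i, Φ (X i * D) = 0) : Ideal (MvPolynomial (Fin n) k) where
  carrier := {f | (∀ i < s, homogeneousComponent i f = 0) ∧
    homogeneousComponent s f + Φ (homogeneousComponent (s + 1) f) • D ∈ W}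
  add_mem' := by
    rintro f g ⟨hf1, hf2⟩ ⟨hg1, hg2⟩
    refine ⟨fun i hi => by rw [map_add, hf1 i hi, hg1 i hi, add_zero], ?_⟩
    have := W.add_mem hf2 hg2
    convert this using 1
    simp only [map_add, add_smul]
    abel
  zero_mem' := ⟨fun i _ => by simp, by simp⟩
  smul_mem' := by
    intro g f hf
    rw [smul_eq_mul]
    induction g using MvPolynomial.induction_on generalizing f with
    | C a =>
      refine ⟨fun i hi => by rw [homogeneousComponent_C_mul, hf.1 i hi, mul_zero], ?_⟩
      have := W.smul_mem a hf.2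
      convert this using 1
      simp only [← smul_eq_C_mul, map_smul, smul_add, smul_eq_mul, mul_smul]
    | add p q hp hq =>
      have h1 := hp hf
      have h2 := hq hf
      rw [add_mul]
      refine ⟨fun i hi => by rw [map_add, h1.1 i hi, h2.1 i hi, add_zero], ?_⟩
      have := W.add_mem h1.2 h2.2
      convert this using 1
      simp only [map_add, add_smul]
      abel
    | mul_X p i hp =>
      rw [mul_assoc]
      apply hp
      constructor
      · intro j hj
        cases j with
        | zero => exact hc_X_mul_zero i f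
        | succ j => rw [hc_X_mul_succ, hf.1 j (by omega), mul_zero]
      · have h1 : homogeneousComponent s (X i * f) = 0 := by
          cases s with
          | zero => exact hc_X_mul_zero i f
          | succ s => rw [hc_X_mul_succ, hf.1 s (by omega), mul_zero]
        have h2 : Φ (homogeneousComponent (s + 1) (X i * f)) = 0 := by
          rw [hc_X_mul_succ]
          have h3 := hW i _ hf.2
          rw [mul_add, map_add, mul_smul_comm, map_smul, hD i, smul_zero, add_zero] at h3
          exact h3
        rw [h1, h2, zero_smul, add_zero]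
        exact W.zero_mem

theorem mem_defIdeal {s : ℕ} {W : Submodule k (MvPolynomial (Fin n) k)}
    {D : MvPolynomial (Fin n) k} {Φ : MvPolynomial (Fin n) k →ₗ[k] k}
    {hW : ∀ i, ∀ g ∈ W, Φ (X i * g) = 0} {hD : ∀ i, Φ (X i * D) = 0}
    {f : MvPolynomial (Fin n) k} :
    f ∈ defIdeal s W D Φ hW hD ↔ (∀ i < s, homogeneousComponent i f = 0) ∧
      homogeneousComponent s f + Φ (homogeneousComponent (s + 1) f) • D ∈ W := Iff.rfl

/-- The very compressed ideal `W + 𝔪^(s+1)`, `W ⊆ S_s`. -/
noncomputable def stdIdeal (s : ℕ) (W : Submodule k (MvPolynomial (Fin n) k)) :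
    Ideal (MvPolynomial (Fin n) k) :=
  defIdeal s W 0 0 (fun _ _ _ => rfl) (fun _ => rfl)

theorem mem_stdIdeal {s : ℕ} {W : Submodule k (MvPolynomial (Fin n) k)}
    {f : MvPolynomial (Fin n) k} :
    f ∈ stdIdeal s W ↔ (∀ i < s, homogeneousComponent i f = 0) ∧ homogeneousComponent s f ∈ W := by
  rw [stdIdeal, mem_defIdeal]
  simp

end Pool.Agent.HilbVC
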