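import Pool.Agent.Hhelper14.HilbSmooth

/-!
# Irreducibility of the very compressed locus
-/

open MvPolynomial TopologicalSpace

namespace Pool.Agent.HilbVC

universe u

variable {k : Type u} [Field k] {n d : ℕ}

/-- Change of dual functionals by an invertible matrix. -/
theorem dual_change {s r : ℕ} (W : Submodule k (MvPolynomial (Fin n) k))
    (b : Fin r → MvPolynomial (Fin n) k) (β : Fin r → (MvPolynomial (Fin n) k →ₗ[k] k))
    (hβ : ∀ g ∈ homogeneousSubmodule (Fin n) k s, g ∈ W ↔ ∀ i, β i g = 0)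
    (hdet : (Matrix.of fun i j => β j (b i)).det ≠ 0) :
    ∃ β' : Fin r → (MvPolynomial (Fin n) k →ₗ[k] k),
      (∀ g ∈ homogeneousSubmodule (Fin n) k s, g ∈ W ↔ ∀ i, β' i g = 0) ∧
      (∀ i j, β' j (b i) = if i = j then 1 else 0) := by
  set M : Matrix (Fin r) (Fin r) k := Matrix.of fun i j => β j (b i) with hM
  have hu : IsUnit M.det := isUnit_iff_ne_zero.2 hdet
  refine ⟨fun j => ∑ l, M⁻¹ l j • β l, fun g hg => ?_, fun i j => ?_⟩
  · rw [hβ g hg]
    constructor
    · intro h j
      simp only [LinearMap.sum_apply, LinearMap.smul_apply, h, smul_zero, Finset.sum_const_zero]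
    · intro h
      have h1 : Matrix.vecMul (fun l => β l g) M⁻¹ = 0 := by
        ext j
        have := h j
        simp only [LinearMap.sum_apply, LinearMap.smul_apply, smul_eq_mul] at this
        rw [Matrix.vecMul, dotProduct, Pi.zero_apply, ← this]
        exact Finset.sum_congr rfl fun l _ => mul_comm _ _
      have h2 : (fun l => β l g) = 0 := by
        have h3 : Matrix.vecMul (Matrix.vecMul (fun l => β l g) M⁻¹) M = 0 := by
          rw [h1, Matrix.zero_vecMul]
        rwa [Matrix.vecMul_vecMul, Matrix.nonsing_inv_mul _ hu, Matrix.vecMul_one] at h3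
      exact fun i => congrFun h2 i
  · have h1 : (M * M⁻¹) i j = (1 : Matrix (Fin r) (Fin r) k) i j := by
      rw [Matrix.mul_nonsing_inv _ hu]
    rw [Matrix.mul_apply, Matrix.one_apply] at h1
    rw [← h1]
    simp only [LinearMap.sum_apply, LinearMap.smul_apply, smul_eq_mul]
    exact Finset.sum_congr rfl fun l _ => mul_comm _ _

/-- A linear pencil of square matrices as a polynomial in the parameter. -/
theorem exists_det_poly {r : ℕ} (A A' : Matrix (Fin r) (Fin r) k) :
    ∃ p : Polynomial k, ∀ t : k, p.eval t = ((1 - t) • A + t • A').det := by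
  refine ⟨(((1 - Polynomial.X : Polynomial k)) • A.map Polynomial.C +
    (Polynomial.X : Polynomial k) • A'.map Polynomial.C).det, fun t => ?_⟩
  rw [← Polynomial.coe_evalRingHom, RingHom.map_det]
  congr 1
  ext i j
  simp
  exact mul_comm _ _

theorem exists_common_dual [Infinite k] (s r : ℕ) (W0 W1 : Submodule k (MvPolynomial (Fin n) k))
    (hW0 : W0 ≤ homogeneousSubmodule (Fin n) k s)
    (hr0 : Module.finrank k W0 + r = n.multichoose s)
    (hW1 : W1 ≤ homogeneousSubmodule (Fin n) k s)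
    (hr1 : Module.finrank k W1 + r = n.multichoose s) :
    ∃ (b : Fin r → MvPolynomial (Fin n) k) (β0 β1 : Fin r → (MvPolynomial (Fin n) k →ₗ[k] k)),
      (∀ i, b i ∈ homogeneousSubmodule (Fin n) k s) ∧
      (∀ g ∈ homogeneousSubmodule (Fin n) k s, g ∈ W0 ↔ ∀ i, β0 i g = 0) ∧
      (∀ g ∈ homogeneousSubmodule (Fin n) k s, g ∈ W1 ↔ ∀ i, β1 i g = 0) ∧
      (∀ i j, β0 j (b i) = if i = j then 1 else 0) ∧
      (∀ i j, β1 j (b i) = if i = j then 1 else 0) := by
  obtain ⟨b0, β0, hb0, hβ0, hd0⟩ := exists_dual s r W0 hW0 hr0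
  obtain ⟨b1, β1, hb1, hβ1, hd1⟩ := exists_dual s r W1 hW1 hr1
  obtain ⟨p0, hp0⟩ := exists_det_poly (Matrix.of fun i j => β0 j (b0 i))
    (Matrix.of fun i j => β0 j (b1 i))
  obtain ⟨p1, hp1⟩ := exists_det_poly (Matrix.of fun i j => β1 j (b0 i))
    (Matrix.of fun i j => β1 j (b1 i))
  have hp0' : p0 ≠ 0 := by
    intro h0
    have h1 := hp0 0
    rw [h0, Polynomial.eval_zero, sub_zero, one_smul, zero_smul, add_zero] at h1
    have h2 : (Matrix.of fun i j => β0 j (b0 i)) = (1 : Matrix (Fin r) (Fin r) k) := by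
      ext i j
      rw [Matrix.of_apply, hd0, Matrix.one_apply]
    rw [h2, Matrix.det_one] at h1
    exact zero_ne_one h1
  have hp1' : p1 ≠ 0 := by
    intro h0
    have h1 := hp1 1
    rw [h0, Polynomial.eval_zero, sub_self, one_smul, zero_smul, zero_add] at h1
    have h2 : (Matrix.of fun i j => β1 j (b1 i)) = (1 : Matrix (Fin r) (Fin r) k) := by
      ext i j
      rw [Matrix.of_apply, hd1, Matrix.one_apply]
    rw [h2, Matrix.det_one] at h1
    exact zero_ne_one h1
  obtain ⟨t, ht⟩ : ∃ t : k, (p0 * p1).eval t ≠ 0 := by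
    by_contra hcon
    push Not at hcon
    exact mul_ne_zero hp0' hp1' (Polynomial.funext fun t => by rw [hcon t, Polynomial.eval_zero])
  rw [Polynomial.eval_mul] at ht
  have ht0 := left_ne_zero_of_mul ht
  have ht1 := right_ne_zero_of_mul ht
  let b : Fin r → MvPolynomial (Fin n) k := fun i => (1 - t) • b0 i + t • b1 i
  have hb : ∀ i, b i ∈ homogeneousSubmodule (Fin n) k s := fun i =>
    Submodule.add_mem _ (Submodule.smul_mem _ _ (hb0 i)) (Submodule.smul_mem _ _ (hb1 i))
  have hm0 : (Matrix.of fun i j => β0 j (b i)) = (1 - t) • (Matrix.of fun i j => β0 j (b0 i)) +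
      t • (Matrix.of fun i j => β0 j (b1 i)) := by
    ext i j
    simp [b]
  have hm1 : (Matrix.of fun i j => β1 j (b i)) = (1 - t) • (Matrix.of fun i j => β1 j (b0 i)) +
      t • (Matrix.of fun i j => β1 j (b1 i)) := by
    ext i j
    simp [b]
  obtain ⟨β0', h1, h2⟩ := dual_change W0 b β0 hβ0 (by rw [hm0, ← hp0]; exact ht0)
  obtain ⟨β1', h3, h4⟩ := dual_change W1 b β1 hβ1 (by rw [hm1, ← hp1]; exact ht1)
  exact ⟨b, β0', β1', hb, h1, h3, h2, h4⟩

theorem finrank_of_dual {s r : ℕ} (W : Submodule k (MvPolynomial (Fin n) k))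
    (hW : W ≤ homogeneousSubmodule (Fin n) k s)
    (b : Fin r → MvPolynomial (Fin n) k) (β : Fin r → (MvPolynomial (Fin n) k →ₗ[k] k))
    (hb : ∀ i, b i ∈ homogeneousSubmodule (Fin n) k s)
    (hβ : ∀ g ∈ homogeneousSubmodule (Fin n) k s, g ∈ W ↔ ∀ i, β i g = 0)
    (hβb : ∀ i j, β j (b i) = if i = j then 1 else 0) :
    Module.finrank k W + r = n.multichoose s := by
  let L : homogeneousSubmodule (Fin n) k s →ₗ[k] (Fin r → k) :=
    LinearMap.pi fun i => (β i).comp (homogeneousSubmodule (Fin n) k s).subtype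
  have hLs : Function.Surjective L := by
    intro x
    refine ⟨∑ i, x i • ⟨b i, hb i⟩, ?_⟩
    ext j
    rw [map_sum]
    simp only [map_smul, L, LinearMap.pi_apply, LinearMap.comp_apply, Finset.sum_apply,
      Pi.smul_apply, Submodule.subtype_apply, hβb, smul_eq_mul]
    simp
  have hLk : (LinearMap.ker L).map (homogeneousSubmodule (Fin n) k s).subtype = W := by
    ext g
    constructor
    · rintro ⟨⟨g', hg'⟩, h3, rfl⟩
      rw [Submodule.subtype_apply, hβ _ hg']
      intro i
      exact congrFun h3 i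
    · intro hg
      refine ⟨⟨g, hW hg⟩, ?_, rfl⟩
      rw [SetLike.mem_coe, LinearMap.mem_ker]
      ext i
      exact (hβ g (hW hg)).1 hg i
  have h3 := LinearMap.finrank_range_add_finrank_ker L
  rw [LinearMap.range_eq_top.2 hLs, finrank_top, Module.finrank_fintype_fun_eq_card,
    Fintype.card_fin, finrank_homog] at h3
  have h4 : Module.finrank k W = Module.finrank k (LinearMap.ker L) := by
    rw [← hLk]
    exact (Submodule.equivMapOfInjective _ (Submodule.injective_subtype _)
      (LinearMap.ker L)).symm.finrank_eq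
  omega

/-- The pencil of subspaces `W_t = ⋂ ker ((1 - t) β0_i + t β1_i)`. -/
noncomputable def pencil (s : ℕ) {r : ℕ} (β0 β1 : Fin r → (MvPolynomial (Fin n) k →ₗ[k] k))
    (t : k) : Submodule k (MvPolynomial (Fin n) k) :=
  homogeneousSubmodule (Fin n) k s ⊓ ⨅ i, LinearMap.ker ((1 - t) • β0 i + t • β1 i)

theorem mem_pencil {s r : ℕ} {β0 β1 : Fin r → (MvPolynomial (Fin n) k →ₗ[k] k)} {t : k} :
    ∀ g ∈ homogeneousSubmodule (Fin n) k s, g ∈ pencil s β0 β1 t ↔
      ∀ i, ((1 - t) • β0 i + t • β1 i) g = 0 := by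
  intro g hg
  simp only [pencil, Submodule.mem_inf, Submodule.mem_iInf, LinearMap.mem_ker]
  exact ⟨fun h => h.2, fun h => ⟨hg, h⟩⟩

theorem pencil_dual {r : ℕ} {b : Fin r → MvPolynomial (Fin n) k}
    {β0 β1 : Fin r → (MvPolynomial (Fin n) k →ₗ[k] k)}
    (h0 : ∀ i j, β0 j (b i) = if i = j then 1 else 0)
    (h1 : ∀ i j, β1 j (b i) = if i = j then 1 else 0) (t : k) (i j : Fin r) :
    ((1 - t) • β0 j + t • β1 j) (b i) = if i = j then 1 else 0 := by
  simp only [LinearMap.add_apply, LinearMap.smul_apply, h0, h1, smul_eq_mul]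
  ring

theorem pencil_zero {s r : ℕ} {β0 β1 : Fin r → (MvPolynomial (Fin n) k →ₗ[k] k)}
    {W0 : Submodule k (MvPolynomial (Fin n) k)} (hW0 : W0 ≤ homogeneousSubmodule (Fin n) k s)
    (h : ∀ g ∈ homogeneousSubmodule (Fin n) k s, g ∈ W0 ↔ ∀ i, β0 i g = 0) :
    pencil s β0 β1 0 = W0 := by
  ext g
  constructor
  · intro hg
    have hg' : g ∈ homogeneousSubmodule (Fin n) k s := hg.1
    rw [h g hg']
    simpa using (mem_pencil g hg').1 hg
  · intro hg
    rw [mem_pencil g (hW0 hg)]
    simpa using (h g (hW0 hg)).1 hg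

theorem pencil_one {s r : ℕ} {β0 β1 : Fin r → (MvPolynomial (Fin n) k →ₗ[k] k)}
    {W1 : Submodule k (MvPolynomial (Fin n) k)} (hW1 : W1 ≤ homogeneousSubmodule (Fin n) k s)
    (h : ∀ g ∈ homogeneousSubmodule (Fin n) k s, g ∈ W1 ↔ ∀ i, β1 i g = 0) :
    pencil s β0 β1 1 = W1 := by
  ext g
  constructor
  · intro hg
    have hg' : g ∈ homogeneousSubmodule (Fin n) k s := hg.1
    rw [h g hg']
    simpa using (mem_pencil g hg').1 hg
  · intro hg
    rw [mem_pencil g (hW1 hg)]
    simpa using (h g (hW1 hg)).1 hg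

/-- Translation paths are continuous. -/
theorem exists_shift_poly (v w : Fin n → k) (f : MvPolynomial (Fin n) k) :
    ∃ F : Polynomial (MvPolynomial (Fin n) k), ∀ t : k, shift (v + t • w) f = F.eval (C t) := by
  induction f using MvPolynomial.induction_on with
  | C a =>
    refine ⟨Polynomial.C (C a), fun t => ?_⟩
    rw [Polynomial.eval_C, shift_apply, aeval_C]
    rfl
  | add p q hp hq =>
    obtain ⟨F, hF⟩ := hp
    obtain ⟨G, hG⟩ := hq
    exact ⟨F + G, fun t => by rw [map_add, hF, hG, Polynomial.eval_add]⟩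
  | mul_X p i hp =>
    obtain ⟨F, hF⟩ := hp
    refine ⟨F * (Polynomial.C (X i + C (v i)) + Polynomial.X * Polynomial.C (C (w i))),
      fun t => ?_⟩
    rw [map_mul, hF, Polynomial.eval_mul, shift_apply, aeval_X]
    simp only [Pi.add_apply, Pi.smul_apply, smul_eq_mul, Polynomial.eval_add, Polynomial.eval_mul,
      Polynomial.eval_C, Polynomial.eval_X, map_add, map_mul]
    ring

theorem continuous_shift_path (v w : Fin n → k) (I : HilbPt k n d) :
    Continuous fun y : CofiniteTopology k =>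
      transport (shift (v + CofiniteTopology.of.symm y • w)) I := by
  obtain ⟨B, hB⟩ := exists_frame I
  let τ : CofiniteTopology k → (MvPolynomial (Fin n) k ≃ₐ[k] MvPolynomial (Fin n) k) :=
    fun y => shift (v + CofiniteTopology.of.symm y • w)
  have hfr : ∀ y, IsFrame (fun j => τ y ((τ y).symm (B j))) I.ideal := by
    intro y
    simpa using hB
  refine continuous_path _ (fun y j => (τ y).symm (B j)) (fun y => ?_) (fun f j => ?_)
  · exact (isFrame_pull_of (τ y) (hfr y)).1
  · obtain ⟨F, hF⟩ := exists_shift_poly v w f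
    refine ⟨∑ m ∈ Finset.range (F.natDegree + 1),
      Polynomial.C (coord B I.ideal (F.coeff m) j) * Polynomial.X ^ m, fun y => ?_⟩
    have h1 := (isFrame_pull_of (τ y) (hfr y)).2 f j
    change coord _ (pull (τ y) I.ideal) f j = _
    rw [h1]
    have h2 : (fun j => τ y ((τ y).symm (B j))) = B := by
      ext j; simp
    rw [h2, hF, Polynomial.eval_eq_sum_range, ← coordL_apply, map_sum, Polynomial.eval_finsetSum]
    refine Finset.sum_congr rfl fun m _ => ?_
    rw [Polynomial.eval_mul, Polynomial.eval_C, Polynomial.eval_pow, Polynomial.eval_X,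
      ← map_pow, mul_comm, ← smul_eq_C_mul, map_smul, coordL_apply, smul_eq_mul, mul_comm]

omit [Field k] in
/-- Two nonempty open subsets of the line meet. -/
theorem line_meet [Infinite k] (A A' : Set (CofiniteTopology k)) (hA : IsOpen A)
    (hA' : IsOpen A') (hne : A.Nonempty) (hne' : A'.Nonempty) : (A ∩ A').Nonempty := by
  rw [CofiniteTopology.isOpen_iff] at hA hA'
  have h1 := (hA hne).union (hA' hne')
  have hinf : Infinite (CofiniteTopology k) :=
    (CofiniteTopology.of (X := k)).symm.infinite_iff.2 ‹_›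
  obtain ⟨y, hy⟩ := h1.exists_notMem
  rw [Set.mem_union, not_or, Set.mem_compl_iff, Set.mem_compl_iff, not_not, not_not] at hy
  exact ⟨y, hy⟩

theorem veryCompressed_irreducible [Infinite k] (s r c : ℕ) (hn : 1 ≤ n) (hs : 1 ≤ s)
    (hr : 1 ≤ r) (hcr : c + r = n.multichoose s) (hdr : d = (n + s - 1).choose n + r)
    (hne : (veryCompressed k n d).Nonempty) : IsIrreducible (veryCompressed k n d) := by
  refine ⟨hne, ?_⟩
  have hpascal := pascal_aux n s hn
  have h1 : (n + s - 1).choose n < d := by omega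
  have h2 : d ≤ (n + s).choose n := by omega
  rintro U U' hU hU' ⟨I0, hI0, hI0U⟩ ⟨I1, hI1, hI1U⟩
  obtain ⟨v0, W0, hW0, hr0, hI0'⟩ := vc_struct s hn h1 h2 I0 hI0
  obtain ⟨v1, W1, hW1, hr1, hI1'⟩ := vc_struct s hn h1 h2 I1 hI1
  have hdr' : d - (n + s - 1).choose n = r := by omega
  rw [hdr'] at hr0 hr1
  obtain ⟨b, β0, β1, hb, hβ0, hβ1, hd0, hd1⟩ := exists_common_dual s r W0 W1 hW0 hr0 hW1 hr1
  have hcard : Fintype.card (DegLt n s ⊕ Fin r) = d := by
    rw [Fintype.card_sum, card_degLt' n s hn, Fintype.card_fin, hdr]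
  let e : Fin d ≃ DegLt n s ⊕ Fin r := (Fintype.equivFinOfCardEq hcard).symm
  have hF : ∀ t : k, IsFrame (stdFrame e b) (stdIdeal s (pencil s β0 β1 t)) := fun t =>
    isFrame_defIdeal (Submodule.zero_mem _) _ _ hb mem_pencil (pencil_dual hd0 hd1 t)
  let γ : CofiniteTopology k → HilbPt k n d := fun y => (hF (CofiniteTopology.of.symm y)).pt
  have hγ : Continuous γ := by
    refine continuous_path γ (fun _ => stdFrame e b) (fun y => hF _) ?_
    intro f j
    have hcoord : ∀ t : k, coord (stdFrame e b) (stdIdeal s (pencil s β0 β1 t)) f j =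
        stdDual e (fun i => (1 - t) • β0 i + t • β1 i) 0 0 j f :=
      fun t => coord_defIdeal (Submodule.zero_mem _) (fun _ _ _ => rfl) (fun _ => rfl) hb
        mem_pencil (pencil_dual hd0 hd1 t) f j
    rcases he : e j with α | i
    · refine ⟨Polynomial.C (coeff α.1 f), fun y => ?_⟩
      change coord (stdFrame e b) (stdIdeal s (pencil s β0 β1 _)) f j = _
      rw [hcoord, stdDual, he, Polynomial.eval_C]
      rfl
    · refine ⟨(1 - Polynomial.X) * Polynomial.C (β0 i (homogeneousComponent s f)) +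
        Polynomial.X * Polynomial.C (β1 i (homogeneousComponent s f)), fun y => ?_⟩
      change coord (stdFrame e b) (stdIdeal s (pencil s β0 β1 _)) f j = _
      rw [hcoord, stdDual, he]
      simp only [Sum.elim_inr, LinearMap.comp_apply, LinearMap.add_apply,
        LinearMap.smulRight_apply, LinearMap.smul_apply, smul_eq_mul,
        Polynomial.eval_add, Polynomial.eval_mul, Polynomial.eval_C, Polynomial.eval_X,
        Polynomial.eval_sub, Polynomial.eval_one, LinearMap.zero_comp, LinearMap.zero_apply,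
        zero_smul, add_zero]
  -- the two-parameter family
  let Γ : k → k → HilbPt k n d := fun t t' =>
    transport (shift (v0 + t • (v1 - v0))) (γ (CofiniteTopology.of t'))
  have hΓvc : ∀ t t', Γ t t' ∈ veryCompressed k n d := by
    intro t t'
    refine vc_of_std s hn hs h1 h2 _ (v0 + t • (v1 - v0)) (pencil s β0 β1 t') inf_le_left ?_ rfl
    rw [hdr']
    exact finrank_of_dual _ inf_le_left b _ hb mem_pencil (pencil_dual hd0 hd1 t')
  have hΓ1 : ∀ t', Continuous fun y : CofiniteTopology k => Γ (CofiniteTopology.of.symm y) t' :=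
    fun t' => continuous_shift_path v0 (v1 - v0) (γ (CofiniteTopology.of t'))
  have hΓ2 : ∀ t, Continuous fun y : CofiniteTopology k => Γ t (CofiniteTopology.of.symm y) :=
    fun t => (continuous_transport (shift (v0 + t • (v1 - v0)))).comp hγ
  have hΓ00 : Γ 0 0 = I0 := by
    apply HilbPt.ext'
    rw [hI0']
    change pull (shift (v0 + (0 : k) • (v1 - v0))) (stdIdeal s (pencil s β0 β1 0)) = _
    rw [pencil_zero hW0 hβ0, zero_smul, add_zero]
  have hΓ11 : Γ 1 1 = I1 := by
    apply HilbPt.ext'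
    rw [hI1']
    change pull (shift (v0 + (1 : k) • (v1 - v0))) (stdIdeal s (pencil s β0 β1 1)) = _
    rw [pencil_one hW1 hβ1, one_smul, add_sub_cancel]
  obtain ⟨y, hy1, hy2⟩ := line_meet _ _ (hU.preimage (hΓ1 0)) (hU'.preimage (hΓ1 1))
    ⟨CofiniteTopology.of 0, by change Γ 0 0 ∈ U; rw [hΓ00]; exact hI0U⟩
    ⟨CofiniteTopology.of 1, by change Γ 1 1 ∈ U'; rw [hΓ11]; exact hI1U⟩
  obtain ⟨y', hy1', hy2'⟩ := line_meet _ _
    (hU.preimage (hΓ2 (CofiniteTopology.of.symm y)))
    (hU'.preimage (hΓ2 (CofiniteTopology.of.symm y)))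
    ⟨CofiniteTopology.of 0, hy1⟩ ⟨CofiniteTopology.of 1, hy2⟩
  exact ⟨_, hΓvc _ _, hy1', hy2'⟩

end Pool.Agent.HilbVC
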