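import Pool.Agent.Hhelper14.HilbChart

/-!
# Charts of the Hilbert scheme of points are Noetherian; irreducible components
-/

open MvPolynomial TopologicalSpace

namespace Pool.Agent.HilbVC

universe u

variable {k : Type u} [Field k] {n d : ℕ}

theorem isOpen_basicOpen (B : Fin d → MvPolynomial (Fin n) k)
    (P : MvPolynomial (MvPolynomial (Fin n) k × Fin d) k) :
    IsOpen (basicOpen B P : Set (HilbPt k n d)) :=
  isOpen_generateFrom_of_mem ⟨B, P, rfl⟩

theorem isOpen_chart (B : Fin d → MvPolynomial (Fin n) k) :
    IsOpen {I : HilbPt k n d | IsFrame B I.ideal} := by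
  have : {I : HilbPt k n d | IsFrame B I.ideal} = basicOpen B 1 := by
    ext I; simp [basicOpen]
  rw [this]
  exact isOpen_basicOpen _ _

/-- The affine coordinates on the chart `U_B`. -/
noncomputable def theta (B : Fin d → MvPolynomial (Fin n) k)
    (I : Ideal (MvPolynomial (Fin n) k)) : (Fin n × Fin d × Fin d) ⊕ Fin d → k
  | Sum.inl q => coord B I (X q.1 * B q.2.1) q.2.2
  | Sum.inr j => coord B I 1 j

/-- The chart `U_B` (a type copy carrying the affine Zariski topology). -/
def ChartPt (k : Type u) [Field k] {n d : ℕ} (B : Fin d → MvPolynomial (Fin n) k) : Type u :=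
  {I : HilbPt k n d // IsFrame B I.ideal}

/-- the map from the chart to the prime spectrum of the polynomial ring in the coordinates -/
noncomputable def rho (B : Fin d → MvPolynomial (Fin n) k) (y : ChartPt k B) :
    PrimeSpectrum (MvPolynomial ((Fin n × Fin d × Fin d) ⊕ Fin d) k) :=
  PrimeSpectrum.comap (MvPolynomial.eval (theta B y.1.ideal)) ⊥

noncomputable instance (B : Fin d → MvPolynomial (Fin n) k) : TopologicalSpace (ChartPt k B) :=
  TopologicalSpace.induced (rho B) inferInstance

instance (B : Fin d → MvPolynomial (Fin n) k) : NoetherianSpace (ChartPt k B) :=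
  Topology.IsInducing.noetherianSpace (i := rho B) ⟨rfl⟩

/-- polynomial functions on the chart -/
noncomputable def chartFn (B : Fin d → MvPolynomial (Fin n) k) :
    MvPolynomial ((Fin n × Fin d × Fin d) ⊕ Fin d) k →ₐ[k] (ChartPt k B → k) :=
  MvPolynomial.aeval fun q y => theta B y.1.ideal q

theorem chartFn_apply (B : Fin d → MvPolynomial (Fin n) k)
    (P : MvPolynomial ((Fin n × Fin d × Fin d) ⊕ Fin d) k) (y : ChartPt k B) :
    chartFn B P y = MvPolynomial.eval (theta B y.1.ideal) P := by
  induction P using MvPolynomial.induction_on with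
  | C c => simp [chartFn]
  | add p q hp hq => simp [hp, hq]
  | mul_X p q hp => simp [hp]; simp [chartFn]

theorem chart_coord_mem (B : Fin d → MvPolynomial (Fin n) k) (f : MvPolynomial (Fin n) k)
    (j : Fin d) : (fun y : ChartPt k B => coord B y.1.ideal f j) ∈ (chartFn B).range := by
  induction f using MvPolynomial.induction_on generalizing j with
  | C c =>
    have : (fun y : ChartPt k B => coord B y.1.ideal (C c) j) =
        c • chartFn B (X (Sum.inr j)) := by
      ext y
      rw [Pi.smul_apply, chartFn_apply, eval_X]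
      change _ = c • coord B y.1.ideal 1 j
      rw [← coordL_apply, ← coordL_apply, ← map_smul]
      congr 1
      rw [smul_eq_C_mul, mul_one]
    rw [this]
    exact Subalgebra.smul_mem _ (AlgHom.mem_range_self _ _) _
  | add p q hp hq =>
    have : (fun y : ChartPt k B => coord B y.1.ideal (p + q) j) =
        (fun y : ChartPt k B => coord B y.1.ideal p j) +
        (fun y : ChartPt k B => coord B y.1.ideal q j) := by
      ext y
      simp only [Pi.add_apply, ← coordL_apply, map_add]
    rw [this]
    exact Subalgebra.add_mem _ (hp j) (hq j)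
  | mul_X p i hp =>
    have : (fun y : ChartPt k B => coord B y.1.ideal (p * X i) j) =
        ∑ a, (fun y : ChartPt k B => coord B y.1.ideal p a) *
          chartFn B (X (Sum.inl (i, a, j))) := by
      ext y
      simp only [Finset.sum_apply, Pi.mul_apply, chartFn_apply, eval_X]
      change _ = ∑ a, coord B y.1.ideal p a * coord B y.1.ideal (X i * B a) j
      have h1 : p - ∑ a, coord B y.1.ideal p a • B a ∈ y.1.ideal := by
        rw [mem_iff_coord y.2]
        intro j
        rw [← coordL_apply, map_sub, map_sum]
        simp [coord_frame y.2]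
      have h2 := Ideal.mul_mem_left _ (X i) h1
      rw [mul_sub, Finset.mul_sum, mem_iff_coord y.2] at h2
      have h3 := h2 j
      rw [← coordL_apply, map_sub, map_sum, sub_eq_zero] at h3
      rw [mul_comm, ← coordL_apply, h3]
      refine Finset.sum_congr rfl fun a _ => ?_
      rw [mul_smul_comm, map_smul]
      rfl
    rw [this]
    exact Subalgebra.sum_mem _ fun a _ => Subalgebra.mul_mem _ (hp a) (AlgHom.mem_range_self _ _)

theorem continuous_chart (B : Fin d → MvPolynomial (Fin n) k) :
    Continuous (fun y : ChartPt k B => (y.1 : HilbPt k n d)) := by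
  refine continuous_of_regular (chartFn B).range ?_ _ (fun _ => B) (fun y => y.2)
    (fun f j => chart_coord_mem B f j)
  rintro _ ⟨P, rfl⟩
  rw [isOpen_induced_iff]
  refine ⟨PrimeSpectrum.basicOpen P, (PrimeSpectrum.basicOpen P).isOpen, ?_⟩
  ext y
  simp only [Set.mem_preimage, SetLike.mem_coe, PrimeSpectrum.mem_basicOpen, rho,
    PrimeSpectrum.comap_asIdeal, Ideal.mem_comap]
  change ¬ (MvPolynomial.eval (theta B y.1.ideal) P ∈ (⊥ : Ideal k)) ↔ _
  rw [Ideal.mem_bot, ← chartFn_apply]
  rfl

theorem noetherian_chart (B : Fin d → MvPolynomial (Fin n) k) :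
    NoetherianSpace {I : HilbPt k n d | IsFrame B I.ideal} := by
  have h := NoetherianSpace.range _ (continuous_chart (k := k) (n := n) (d := d) B)
  have h2 : Set.range (fun y : ChartPt k B => (y.1 : HilbPt k n d)) =
      {I : HilbPt k n d | IsFrame B I.ideal} := by
    ext I
    constructor
    · rintro ⟨y, rfl⟩; exact y.2
    · intro h; exact ⟨⟨I, h⟩, rfl⟩
  rwa [h2] at h

/-- An irreducible component of the Hilbert scheme contains a nonempty open subset. -/
theorem exists_open_subset_component (Z : Set (HilbPt k n d))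
    (hZ : Z ∈ irreducibleComponents (HilbPt k n d)) :
    ∃ U : Set (HilbPt k n d), IsOpen U ∧ U.Nonempty ∧ U ⊆ Z := by
  obtain ⟨I, hI⟩ := hZ.1.nonempty
  obtain ⟨B, hB⟩ := exists_frame I
  have hN := noetherian_chart (k := k) (n := n) (d := d) B
  set W : Set (HilbPt k n d) := {I : HilbPt k n d | IsFrame B I.ideal} with hW
  have hWo : IsOpen W := isOpen_chart B
  have h1 := preimage_mem_irreducibleComponents hZ (f := (Subtype.val : W → HilbPt k n d))
    hWo.isOpenEmbedding_subtypeVal ⟨I, hI, ⟨⟨I, hB⟩, rfl⟩⟩
  obtain ⟨o, ho, hne, hsub⟩ :=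
    NoetherianSpace.exists_isOpen_nonempty_subset_irreducibleComponent _ h1
  refine ⟨Subtype.val '' o, hWo.isOpenMap_subtype_val o ho, hne.image _, ?_⟩
  rintro _ ⟨x, hx, rfl⟩
  exact hsub hx

end Pool.Agent.HilbVC
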