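import Pool.Agent.Hhelper14.HilbComp

/-!
# The very compressed locus is not contained in the smoothable component when `r c > n d`
-/

open MvPolynomial TopologicalSpace

namespace Pool.Agent.HilbVC

universe u

/-- More elements than the transcendence degree satisfy a polynomial relation. -/
theorem exists_relation {k : Type u} [Field k] {ι κ : Type} [Fintype ι] [Fintype κ]
    (Y : κ → FractionRing (MvPolynomial ι k)) (h : Fintype.card ι < Fintype.card κ) :
    ∃ P : MvPolynomial κ k, P ≠ 0 ∧ aeval Y P = 0 := by
  by_contra hcon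
  push Not at hcon
  have hY : AlgebraicIndependent k Y := by
    rw [algebraicIndependent_iff]
    intro p hp
    by_contra h0
    exact hcon p h0 hp
  have h1 : IsTranscendenceBasis k (X : ι → MvPolynomial ι k) := IsTranscendenceBasis.mvPolynomial ι k
  have halg : Algebra.IsAlgebraic (MvPolynomial ι k) (FractionRing (MvPolynomial ι k)) :=
    IsLocalization.isAlgebraic _ (nonZeroDivisors (MvPolynomial ι k))
  have h2 := h1.algebraMap_comp (A := FractionRing (MvPolynomial ι k))
  have h3 := h2.lift_cardinalMk_eq_trdeg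
  have h4 := hY.lift_cardinalMk_le_trdeg
  rw [← h3] at h4
  simp only [Cardinal.mk_fintype, Cardinal.lift_natCast, Nat.cast_le] at h4
  omega

/-- Clearing denominators uniformly in all specialisations. -/
theorem exists_clear_hom {k : Type u} [Field k] {R : Type u} [CommRing R] [Algebra k R]
    {σ : Type*} (δ : R) (z : σ → R) (P : MvPolynomial σ k) :
    ∃ (N : ℕ) (G : R), ∀ (F : Type u) [Field F] [Algebra k F] (φ : R →ₐ[k] F), φ δ ≠ 0 →
      φ G = φ δ ^ N * aeval (fun q => φ (z q) / φ δ) P := by
  induction P using MvPolynomial.induction_on with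
  | C c => exact ⟨0, algebraMap k R c, fun F _ _ φ _ => by simp⟩
  | add p q hp hq =>
    obtain ⟨N1, G1, h1⟩ := hp
    obtain ⟨N2, G2, h2⟩ := hq
    refine ⟨N1 + N2, δ ^ N2 * G1 + δ ^ N1 * G2, fun F _ _ φ hφ => ?_⟩
    rw [map_add, map_mul, map_mul, map_pow, map_pow, h1 F φ hφ, h2 F φ hφ, map_add]
    ring
  | mul_X p q hp =>
    obtain ⟨N, G, h1⟩ := hp
    refine ⟨N + 1, G * z q, fun F _ _ φ hφ => ?_⟩
    rw [map_mul, h1 F φ hφ, map_mul, aeval_X]
    field_simp
    ring

variable {k : Type u} [Field k] {n d : ℕ}

/-- A reduced point is a set of `d` distinct points; we only need evaluation functionals. -/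
theorem exists_points [IsAlgClosed k] (I : HilbPt k n d) (hI : I.ideal.IsRadical)
    (B : Fin d → MvPolynomial (Fin n) k) (hB : IsFrame B I.ideal) :
    ∃ p : Fin d → Fin n → k, (∀ f ∈ I.ideal, ∀ a, eval (p a) f = 0) ∧
      (Matrix.of fun a j => eval (p a) (B j)).det ≠ 0 := by
  have hfin := I.finite
  let A := MvPolynomial (Fin n) k ⧸ I.ideal
  have hred : IsReduced A := (Ideal.isRadical_iff_quotient_reduced _).1 hI
  have hart : IsArtinianRing A := isArtinian_of_tower k inferInstance
  let M := MaximalSpectrum A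
  have hbij : ∀ m : M, Function.Bijective (algebraMap k (A ⧸ m.asIdeal)) := by
    intro m
    have : m.asIdeal.IsMaximal := m.isMaximal
    let _ : Field (A ⧸ m.asIdeal) := Ideal.Quotient.field _
    have hint : Algebra.IsIntegral k (A ⧸ m.asIdeal) := inferInstance
    exact IsAlgClosed.algebraMap_bijective_of_isIntegral
  let em : ∀ m : M, k ≃ₐ[k] (A ⧸ m.asIdeal) := fun m =>
    AlgEquiv.ofBijective (Algebra.ofId k _) (hbij m)
  let Ψ : A ≃ₗ[k] (M → k) :=
    ((IsArtinianRing.equivPi A).toLinearEquiv.restrictScalars k).trans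
      (LinearEquiv.piCongrRight fun m => (em m).symm.toLinearEquiv)
  have hMfin : Fintype M := Fintype.ofFinite M
  have hcard : Fintype.card M = d := by
    rw [← Module.finrank_fintype_fun_eq_card k (η := M), ← Ψ.finrank_eq]
    exact I.finrank_eq
  let eM : Fin d ≃ M := (Fintype.equivFinOfCardEq hcard).symm
  let χ : M → (A →ₐ[k] k) := fun m =>
    ((em m).symm : (A ⧸ m.asIdeal) →ₐ[k] k).comp (Ideal.Quotient.mkₐ k m.asIdeal)
  have hΨ : ∀ x m, Ψ x m = χ m x := fun x m => rfl
  let p : Fin d → Fin n → k := fun a i => χ (eM a) (Ideal.Quotient.mk _ (X i))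
  have hp : ∀ a f, eval (p a) f = χ (eM a) (Ideal.Quotient.mk _ f) := by
    intro a f
    have h1 : (aeval (p a) : MvPolynomial (Fin n) k →ₐ[k] k) =
        (χ (eM a)).comp (Ideal.Quotient.mkₐ k I.ideal) := by
      apply MvPolynomial.algHom_ext
      intro i
      rw [aeval_X]
      rfl
    exact congrArg (fun φ => φ f) h1
  refine ⟨p, ?_, ?_⟩
  · intro f hf a
    rw [hp, Ideal.Quotient.eq_zero_iff_mem.2 hf, map_zero]
  · let b2 : Module.Basis (Fin d) k (Fin d → k) :=
      (frameBasis hB).map (Ψ.trans (LinearEquiv.funCongrLeft k k eM))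
    have h1 : (Matrix.of fun a j => eval (p a) (B j)) =
        (Pi.basisFun k (Fin d)).toMatrix b2 := by
      ext a j
      rw [Module.Basis.toMatrix_apply, Pi.basisFun_repr, Matrix.of_apply, hp]
      simp only [b2, Module.Basis.map_apply, LinearEquiv.trans_apply,
        LinearEquiv.funCongrLeft_apply, LinearMap.funLeft_apply, frameBasis_apply]
      rfl
    rw [h1]
    have h2 := (Pi.basisFun k (Fin d)).toMatrix_mul_toMatrix_flip b2
    have h3 := congrArg Matrix.det h2
    rw [Matrix.det_mul, Matrix.det_one] at h3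
    exact left_ne_zero_of_mul_eq_one h3

/-- On the reduced locus in the chart `U_B`, any family of more than `n d` coordinates satisfies a
polynomial relation. -/
theorem exists_relation_on_reduced [IsAlgClosed k] (B : Fin d → MvPolynomial (Fin n) k)
    {κ : Type} [Fintype κ] (q : κ → MvPolynomial (Fin n) k × Fin d)
    (h : n * d < Fintype.card κ) :
    ∃ P : MvPolynomial κ k, P ≠ 0 ∧ ∀ I : HilbPt k n d, I.ideal.IsRadical →
      IsFrame B I.ideal → eval (fun x => coord B I.ideal (q x).1 (q x).2) P = 0 := by
  let R := MvPolynomial (Fin d × Fin n) k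
  let ev : Fin d → (MvPolynomial (Fin n) k →ₐ[k] R) := fun a => rename (fun l => (a, l))
  let E : Matrix (Fin d) (Fin d) R := Matrix.of fun a j => ev a (B j)
  let δ : R := E.det
  let z : κ → R := fun x => (E.adjugate.mulVec fun a => ev a (q x).1) (q x).2
  let K := FractionRing R
  by_cases hδ : δ = 0
  · refine ⟨1, one_ne_zero, fun I hI hB => ?_⟩
    exfalso
    obtain ⟨p, -, hp⟩ := exists_points I hI B hB
    apply hp
    have h1 : (Matrix.of fun a j => eval (p a) (B j)) =
        (eval fun al : Fin d × Fin n => p al.1 al.2).mapMatrix E := by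
      ext a j
      change _ = eval _ (rename _ (B j))
      rw [eval_rename]
      rfl
    rw [h1, ← RingHom.map_det]
    change eval _ δ = 0
    rw [hδ, map_zero]
  · let φK : R →ₐ[k] K := IsScalarTower.toAlgHom k R K
    have hφK : Function.Injective φK := IsFractionRing.injective R K
    have hδK : φK δ ≠ 0 := fun h0 => hδ (hφK (by rw [h0, map_zero]))
    obtain ⟨P, hP0, hP⟩ := exists_relation (k := k) (ι := Fin d × Fin n)
      (fun x : κ => φK (z x) / φK δ) (by
        rw [Fintype.card_prod, Fintype.card_fin, Fintype.card_fin, mul_comm]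
        exact h)
    obtain ⟨N, G, hG⟩ := exists_clear_hom δ z P
    have hG0 : G = 0 := by
      apply hφK
      rw [hG K φK hδK, hP, mul_zero, map_zero]
    refine ⟨P, hP0, fun I hI hB => ?_⟩
    obtain ⟨p, hp0, hp⟩ := exists_points I hI B hB
    let φ : R →ₐ[k] k := aeval fun al : Fin d × Fin n => p al.1 al.2
    have hφev : ∀ a f, φ (ev a f) = eval (p a) f := by
      intro a f
      change eval _ (rename _ f) = _
      rw [eval_rename]
      rfl
    have hφE : (φ : R →+* k).mapMatrix E = Matrix.of fun a j => eval (p a) (B j) := by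
      ext a j
      exact hφev a (B j)
    have hφδ : φ δ ≠ 0 := by
      have : φ δ = (Matrix.of fun a j => eval (p a) (B j)).det := by
        rw [← hφE]
        exact RingHom.map_det (φ : R →+* k) E
      rw [this]
      exact hp
    have h1 := hG k φ hφδ
    rw [hG0, map_zero] at h1
    have h2 := (mul_eq_zero.1 h1.symm).resolve_left (pow_ne_zero _ hφδ)
    have h3 : (fun x => φ (z x) / φ δ) = fun x => coord B I.ideal (q x).1 (q x).2 := by
      ext x
      rw [div_eq_iff hφδ]
      -- `f(p_a) = ∑ j, coord j * B_j(p_a)`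
      have h4 : ∀ a, eval (p a) (q x).1 =
          ∑ j, eval (p a) (B j) * coord B I.ideal (q x).1 j := by
        intro a
        have h5 : (q x).1 - ∑ j, coord B I.ideal (q x).1 j • B j ∈ I.ideal := by
          rw [mem_iff_coord hB]
          intro j
          rw [← coordL_apply, map_sub, map_sum]
          simp [coord_frame hB]
        have h6 := hp0 _ h5 a
        rw [map_sub, map_sum, sub_eq_zero] at h6
        rw [h6]
        refine Finset.sum_congr rfl fun j _ => ?_
        rw [smul_eval, mul_comm]
      have h5 : (fun a => eval (p a) (q x).1) =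
          (Matrix.of fun a j => eval (p a) (B j)).mulVec fun j => coord B I.ideal (q x).1 j := by
        ext a
        rw [h4 a]
        rfl
      have h6 : φ (z x) = ((Matrix.of fun a j => eval (p a) (B j)).adjugate.mulVec
          fun a => eval (p a) (q x).1) (q x).2 := by
        have h7 : (φ : R →+* k).mapMatrix E.adjugate =
            (Matrix.of fun a j => eval (p a) (B j)).adjugate := by
          rw [← hφE]
          exact RingHom.map_adjugate (φ : R →+* k) E
        rw [← h7]
        simp only [z, Matrix.mulVec, dotProduct, map_sum, map_mul, hφev]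
        rfl
      have h7 : φ δ = (Matrix.of fun a j => eval (p a) (B j)).det := by
        rw [← hφE]
        exact RingHom.map_det (φ : R →+* k) E
      rw [h6, h5, Matrix.mulVec_mulVec, Matrix.adjugate_mul, Matrix.smul_mulVec, Matrix.one_mulVec,
        h7, Pi.smul_apply, smul_eq_mul, mul_comm]
    rw [h3] at h2
    simpa [MvPolynomial.coe_aeval_eq_eval] using h2

theorem pascal_aux (n s : ℕ) (hn : 1 ≤ n) :
    (n + s - 1).choose n + n.multichoose s = (n + s).choose n := by
  rw [← card_degLt' n s hn, ← (by simpa using card_degLt' n (s + 1) hn :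
    Fintype.card (DegLt n (s + 1)) = (n + s).choose n), card_degLt, card_degLt,
    Finset.sum_range_succ]

/-- The functionals `coeff_{b_i} + ∑ y_ij coeff_{m_j}`. -/
noncomputable def yDual {s r c : ℕ} (q : DegEq n s ≃ Fin r ⊕ Fin c) (y : Fin r × Fin c → k)
    (i : Fin r) : MvPolynomial (Fin n) k →ₗ[k] k :=
  lcoeff k (q.symm (Sum.inl i)).1 + ∑ j, y (i, j) • lcoeff k (q.symm (Sum.inr j)).1

theorem not_subset_smoothable [IsAlgClosed k] (s r c : ℕ) (hn : 1 ≤ n) (hs : 1 ≤ s)
    (hr : 1 ≤ r) (hcr : c + r = n.multichoose s) (hdr : d = (n + s - 1).choose n + r)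
    (h : n * d < r * c) : ¬ (veryCompressed k n d ⊆ smoothable k n d) := by
  have hpascal := pascal_aux n s hn
  have h1 : (n + s - 1).choose n < d := by omega
  have h2 : d ≤ (n + s).choose n := by omega
  have hcardE : Fintype.card (DegEq n s) = Fintype.card (Fin r ⊕ Fin c) := by
    rw [card_degEq, Fintype.card_sum, Fintype.card_fin, Fintype.card_fin]; omega
  let q : DegEq n s ≃ Fin r ⊕ Fin c := Fintype.equivOfCardEq hcardE
  let b : Fin r → MvPolynomial (Fin n) k := fun i => monomial (q.symm (Sum.inl i)).1 1
  let m : Fin c → MvPolynomial (Fin n) k := fun j => monomial (q.symm (Sum.inr j)).1 1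
  have hcard : Fintype.card (DegLt n s ⊕ Fin r) = d := by
    rw [Fintype.card_sum, card_degLt' n s hn, Fintype.card_fin, hdr]
  let e : Fin d ≃ DegLt n s ⊕ Fin r := (Fintype.equivFinOfCardEq hcard).symm
  have hb : ∀ i, b i ∈ homogeneousSubmodule (Fin n) k s := fun i =>
    (mem_homogeneousSubmodule _ _).2 (isHomogeneous_monomial 1 (q.symm (Sum.inl i)).2)
  have hm : ∀ j, m j ∈ homogeneousSubmodule (Fin n) k s := fun j =>
    (mem_homogeneousSubmodule _ _).2 (isHomogeneous_monomial 1 (q.symm (Sum.inr j)).2)
  -- the relation on the reduced locus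
  obtain ⟨P, hP0, hP⟩ := exists_relation_on_reduced (k := k) (stdFrame e b)
    (κ := Fin r × Fin c) (fun x => (m x.2, e.symm (Sum.inr x.1))) (by
      rw [Fintype.card_prod, Fintype.card_fin, Fintype.card_fin]; exact h)
  -- a point where `P ≠ 0`
  obtain ⟨y, hy⟩ : ∃ y : Fin r × Fin c → k, eval y P ≠ 0 := by
    by_contra hcon
    push Not at hcon
    exact hP0 (MvPolynomial.funext fun y => by rw [hcon y, map_zero])
  let β : Fin r → (MvPolynomial (Fin n) k →ₗ[k] k) := yDual q y
  have hβb : ∀ i j, β j (b i) = if i = j then 1 else 0 := by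
    intro i j
    simp only [β, yDual, b, LinearMap.add_apply, lcoeff_apply, coeff_monomial,
      LinearMap.sum_apply, LinearMap.smul_apply]
    have h3 : ∀ x : Fin c, ((q.symm (Sum.inl i)).1 = (q.symm (Sum.inr x)).1) ↔ False := by
      intro x
      rw [← Subtype.ext_iff, q.symm.injective.eq_iff]
      simp
    have h4 : ((q.symm (Sum.inl i)).1 = (q.symm (Sum.inl j)).1) ↔ i = j := by
      rw [← Subtype.ext_iff, q.symm.injective.eq_iff]
      simp
    simp only [h3, if_false, smul_zero, Finset.sum_const_zero, add_zero]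
    exact if_congr h4 rfl rfl
  have hβm : ∀ i j, β i (m j) = y (i, j) := by
    intro i j
    simp only [β, yDual, m, LinearMap.add_apply, lcoeff_apply, coeff_monomial,
      LinearMap.sum_apply, LinearMap.smul_apply]
    have h3 : ((q.symm (Sum.inr j)).1 = (q.symm (Sum.inl i)).1) ↔ False := by
      rw [← Subtype.ext_iff, q.symm.injective.eq_iff]
      simp
    have h4 : ∀ x : Fin c, ((q.symm (Sum.inr j)).1 = (q.symm (Sum.inr x)).1) ↔ j = x := by
      intro x
      rw [← Subtype.ext_iff, q.symm.injective.eq_iff]
      simp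
    simp only [h3, h4, if_false, zero_add]
    simp
  let W : Submodule k (MvPolynomial (Fin n) k) :=
    homogeneousSubmodule (Fin n) k s ⊓ ⨅ i, LinearMap.ker (β i)
  have hW : W ≤ homogeneousSubmodule (Fin n) k s := inf_le_left
  have hβ : ∀ g ∈ homogeneousSubmodule (Fin n) k s, g ∈ W ↔ ∀ i, β i g = 0 := by
    intro g hg
    simp only [W, Submodule.mem_inf, Submodule.mem_iInf, LinearMap.mem_ker]
    exact ⟨fun h => h.2, fun h => ⟨hg, h⟩⟩
  have hWr : Module.finrank k W + r = n.multichoose s := by
    let L : homogeneousSubmodule (Fin n) k s →ₗ[k] (Fin r → k) :=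
      LinearMap.pi fun i => (β i).comp (homogeneousSubmodule (Fin n) k s).subtype
    have hLs : Function.Surjective L := by
      intro x
      refine ⟨∑ i, x i • ⟨b i, hb i⟩, ?_⟩
      ext j
      rw [map_sum]
      simp only [map_smul, L, LinearMap.pi_apply, LinearMap.comp_apply, Finset.sum_apply,
        Pi.smul_apply, Submodule.subtype_apply, hβb, smul_eq_mul]
      simp
    have hLk : (LinearMap.ker L).map (homogeneousSubmodule (Fin n) k s).subtype = W := by
      ext g
      constructor
      · rintro ⟨⟨g', hg'⟩, h3, rfl⟩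
        rw [Submodule.subtype_apply, hβ _ hg']
        intro i
        exact congrFun h3 i
      · intro hg
        refine ⟨⟨g, hW hg⟩, ?_, rfl⟩
        rw [SetLike.mem_coe, LinearMap.mem_ker]
        ext i
        exact (hβ g (hW hg)).1 hg i
    have h3 := LinearMap.finrank_range_add_finrank_ker L
    rw [LinearMap.range_eq_top.2 hLs, finrank_top, Module.finrank_fintype_fun_eq_card,
      Fintype.card_fin, finrank_homog] at h3
    have h4 : Module.finrank k W = Module.finrank k (LinearMap.ker L) := by
      rw [← hLk]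
      exact (Submodule.equivMapOfInjective _ (Submodule.injective_subtype _)
        (LinearMap.ker L)).symm.finrank_eq
    omega
  have hF : IsFrame (stdFrame e b) (stdIdeal s W) :=
    isFrame_defIdeal (Submodule.zero_mem _) _ _ hb hβ hβb
  -- the very compressed point
  let A : HilbPt k n d := hF.pt
  have hA : A ∈ veryCompressed k n d := by
    refine vc_of_std s hn hs h1 h2 A 0 W hW (by omega) ?_
    change stdIdeal s W = _
    have : shift (0 : Fin n → k) = AlgEquiv.refl := by
      ext i
      simp [shift_apply]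
    rw [this]
    rfl
  have hcoord : ∀ x : Fin r × Fin c,
      coord (stdFrame e b) A.ideal (m x.2) (e.symm (Sum.inr x.1)) = y x := by
    rintro ⟨i, j⟩
    have h3 := coord_defIdeal (e := e) (Submodule.zero_mem _) (fun _ _ _ => rfl) (fun _ => rfl)
      hb hβ hβb (m j) (e.symm (Sum.inr i)) (Φ := 0) (D := 0)
    change coord (stdFrame e b) (stdIdeal s W) (m j) _ = _ at h3
    change coord (stdFrame e b) (stdIdeal s W) (m j) _ = _
    rw [h3, stdDual, Equiv.apply_symm_apply]
    simp only [Sum.elim_inr, LinearMap.comp_apply, LinearMap.add_apply,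
      LinearMap.smulRight_apply, LinearMap.zero_comp, LinearMap.zero_apply, zero_smul, add_zero]
    rw [homogeneousComponent_of_mem (hm j), if_pos rfl, hβm]
  intro hsub
  have hA2 : A ∈ closure {I : HilbPt k n d | I.ideal.IsRadical} := hsub hA
  let P' : MvPolynomial (MvPolynomial (Fin n) k × Fin d) k :=
    rename (fun x : Fin r × Fin c => (m x.2, e.symm (Sum.inr x.1))) P
  have hev : ∀ I : HilbPt k n d, eval (fun q => coord (stdFrame e b) I.ideal q.1 q.2) P' =
      eval (fun x : Fin r × Fin c =>
        coord (stdFrame e b) I.ideal (m x.2) (e.symm (Sum.inr x.1))) P := by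
    intro I
    rw [eval_rename]
    rfl
  have hAO : A ∈ basicOpen (stdFrame e b) P' := by
    refine ⟨hF, ?_⟩
    rw [hev]
    simp_rw [hcoord]
    exact hy
  obtain ⟨I, hIO, hI⟩ := mem_closure_iff.1 hA2 _ (isOpen_basicOpen _ _) hAO
  apply hIO.2
  rw [hev]
  exact hP I hI hIO.1

end Pool.Agent.HilbVC
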