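import Pool.Agent.Hhelper14.HilbFrame

/-!
# Hilbert functions and the structure of very compressed ideals
-/

open MvPolynomial TopologicalSpace

namespace Pool.Agent.HilbVC

universe u

variable {k : Type u} [Field k] {n d : ℕ}

theorem sub_C_eval_mem (v : Fin n → k) (f : MvPolynomial (Fin n) k) :
    f - C (eval v f) ∈ maxIdeal v := by
  induction f using MvPolynomial.induction_on with
  | C a => simp
  | add p q hp hq =>
    have := (maxIdeal v).add_mem hp hq
    convert this using 1
    simp only [map_add]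
    ring
  | mul_X p i hp =>
    have h1 : (X i - C (v i) : MvPolynomial (Fin n) k) ∈ maxIdeal v :=
      Ideal.subset_span ⟨i, rfl⟩
    have := (maxIdeal v).add_mem (Ideal.mul_mem_right (X i) _ hp)
      (Ideal.mul_mem_left _ (C (eval v p)) h1)
    convert this using 1
    simp only [map_mul, eval_X]
    ring

theorem maxIdeal_eq_ker (v : Fin n → k) : maxIdeal v = RingHom.ker (eval v) := by
  apply le_antisymm
  · rw [maxIdeal, Ideal.span_le]
    rintro _ ⟨i, rfl⟩
    simp [RingHom.mem_ker]
  · intro f hf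
    have := sub_C_eval_mem v f
    rw [RingHom.mem_ker] at hf
    rwa [hf, C_0, sub_zero] at this

theorem mem_maxIdeal (v : Fin n → k) (f : MvPolynomial (Fin n) k) :
    f ∈ maxIdeal v ↔ eval v f = 0 := by
  rw [maxIdeal_eq_ker, RingHom.mem_ker]

instance (v : Fin n → k) : (maxIdeal v).IsPrime := by
  rw [maxIdeal_eq_ker]
  exact RingHom.ker_isPrime _

theorem maxIdeal_zero : maxIdeal (0 : Fin n → k) = idealOfVars (Fin n) k := by
  rw [maxIdeal, idealOfVars]
  simp

theorem mem_pow_iff (m : ℕ) (f : MvPolynomial (Fin n) k) :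
    f ∈ (maxIdeal (0 : Fin n → k)) ^ m ↔ ∀ i < m, homogeneousComponent i f = 0 := by
  rw [maxIdeal_zero, mem_pow_idealOfVars_iff', hc_low_iff]
  exact ⟨fun h α => h α.1 α.2, fun h x hx => h ⟨x, hx⟩⟩

theorem sub_hc_mem (m : ℕ) (f : MvPolynomial (Fin n) k)
    (hf : f ∈ (maxIdeal (0 : Fin n → k)) ^ m) :
    f - homogeneousComponent m f ∈ (maxIdeal (0 : Fin n → k)) ^ (m + 1) := by
  rw [mem_pow_iff] at hf ⊢
  intro i hi
  rw [map_sub, hc_hc]
  split_ifs with h
  · subst h; simp
  · rw [hf i (by omega), sub_zero]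

theorem homog_mem_pow (m : ℕ) (f : MvPolynomial (Fin n) k)
    (hf : f ∈ homogeneousSubmodule (Fin n) k m) :
    f ∈ (maxIdeal (0 : Fin n → k)) ^ m := by
  rw [mem_pow_iff]
  intro i hi
  rw [homogeneousComponent_of_mem hf, if_neg (by omega)]

/-- Initial forms of degree `i` of `I` (together with `𝔪^(i+1)`). -/
noncomputable def initForms (I : Ideal (MvPolynomial (Fin n) k)) (i : ℕ) :
    Submodule k (MvPolynomial (Fin n) k) :=
  (I ⊔ (maxIdeal (0 : Fin n → k)) ^ (i + 1)).restrictScalars k ⊓
    homogeneousSubmodule (Fin n) k i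

theorem mem_maxPow (I : Ideal (MvPolynomial (Fin n) k)) (v : Fin n → k) (i : ℕ)
    (f : MvPolynomial (Fin n) k) :
    Ideal.Quotient.mk I f ∈ maxPow I v i ↔ f ∈ I ⊔ (maxIdeal v) ^ i := by
  rw [maxPow, Submodule.restrictScalars_mem, ← Ideal.map_pow,
    Ideal.mem_map_iff_of_surjective _ Ideal.Quotient.mk_surjective, Submodule.mem_sup]
  constructor
  · rintro ⟨g, hg, h⟩
    refine ⟨f - g, ?_, g, hg, by ring⟩
    rw [← Ideal.Quotient.eq_zero_iff_mem, map_sub, h, sub_self]
  · rintro ⟨y, hy, z, hz, rfl⟩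
    refine ⟨z, hz, ?_⟩
    rw [map_add, Ideal.Quotient.eq_zero_iff_mem.2 hy, zero_add]

theorem hilbertFn_add (I : Ideal (MvPolynomial (Fin n) k)) (i : ℕ) :
    hilbertFn I 0 i + Module.finrank k (initForms I i) = n.multichoose i := by
  let H := homogeneousSubmodule (Fin n) k i
  let P := maxPow I (0 : Fin n → k) i
  let P' := maxPow I (0 : Fin n → k) (i + 1)
  let mkL : MvPolynomial (Fin n) k →ₗ[k] MvPolynomial (Fin n) k ⧸ I :=
    (Ideal.Quotient.mkₐ k I).toLinearMap
  have hmk : ∀ f, mkL f = Ideal.Quotient.mk I f := fun f => rfl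
  have h0 : ∀ g : H, mkL g ∈ P := by
    rintro ⟨g, hg⟩
    have h3 := homog_mem_pow i g hg
    rw [hmk]
    exact (mem_maxPow I 0 i g).2 (Ideal.mem_sup_right h3)
  let L : H →ₗ[k] P ⧸ P'.submoduleOf P :=
    (P'.submoduleOf P).mkQ.comp ((mkL.comp H.subtype).codRestrict P h0)
  have hsurj : Function.Surjective L := by
    intro x
    obtain ⟨⟨y, hy⟩, rfl⟩ := Submodule.mkQ_surjective _ x
    have hy' : y ∈ maxPow I (0 : Fin n → k) i := hy
    rw [maxPow, Submodule.restrictScalars_mem, ← Ideal.map_pow,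
      Ideal.mem_map_iff_of_surjective _ Ideal.Quotient.mk_surjective] at hy'
    obtain ⟨f, hf, rfl⟩ := hy'
    refine ⟨⟨homogeneousComponent i f, homogeneousComponent_mem i f⟩, ?_⟩
    simp only [L, LinearMap.comp_apply, Submodule.mkQ_apply]
    rw [Submodule.Quotient.eq]
    change Ideal.Quotient.mk I (homogeneousComponent i f) - Ideal.Quotient.mk I f ∈ P'
    rw [← map_sub]
    apply (mem_maxPow I 0 (i + 1) _).2
    apply Ideal.mem_sup_right
    have := Ideal.neg_mem_iff _ |>.2 (sub_hc_mem i f hf)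
    rwa [neg_sub] at this
  have hker : (LinearMap.ker L).map H.subtype = initForms I i := by
    ext g
    constructor
    · rintro ⟨⟨g', hg'⟩, h1, rfl⟩
      have h2 : L ⟨g', hg'⟩ = 0 := h1
      simp only [L, LinearMap.comp_apply, Submodule.mkQ_apply] at h2
      rw [Submodule.Quotient.mk_eq_zero] at h2
      exact ⟨(mem_maxPow I 0 (i + 1) g').1 h2, hg'⟩
    · rintro ⟨h1, h2⟩
      refine ⟨⟨g, h2⟩, ?_, rfl⟩
      have : L ⟨g, h2⟩ = 0 := by
        simp only [L, LinearMap.comp_apply, Submodule.mkQ_apply]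
        rw [Submodule.Quotient.mk_eq_zero]
        exact (mem_maxPow I 0 (i + 1) g).2 h1
      exact this
  have h1 : Module.finrank k (initForms I i) = Module.finrank k (LinearMap.ker L) := by
    rw [← hker]
    exact (Submodule.equivMapOfInjective H.subtype (Submodule.injective_subtype H)
      (LinearMap.ker L)).symm.finrank_eq
  have h2 : hilbertFn I 0 i = Module.finrank k (LinearMap.range L) := by
    rw [LinearMap.range_eq_top.2 hsurj, finrank_top]
    rfl
  rw [h1, h2, LinearMap.finrank_range_add_finrank_ker, finrank_homog]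

theorem initForms_le (I : Ideal (MvPolynomial (Fin n) k)) (i : ℕ) :
    initForms I i ≤ homogeneousSubmodule (Fin n) k i := inf_le_right

instance (I : Ideal (MvPolynomial (Fin n) k)) (i : ℕ) : Module.Finite k (initForms I i) :=
  Submodule.finiteDimensional_of_le (initForms_le I i)

/-- The structure theorem: an ideal with very compressed Hilbert function is `W + 𝔪^(s+1)`. -/
theorem exists_eq_stdIdeal (I : Ideal (MvPolynomial (Fin n) k)) (s r : ℕ)
    (hrad : I.radical = maxIdeal 0)
    (h1 : ∀ i < s, hilbertFn I 0 i = n.multichoose i)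
    (h2 : hilbertFn I 0 s = r)
    (h3 : ∀ i > s, hilbertFn I 0 i = 0) :
    ∃ W : Submodule k (MvPolynomial (Fin n) k), W ≤ homogeneousSubmodule (Fin n) k s ∧
      Module.finrank k W + r = n.multichoose s ∧ I = stdIdeal s W := by
  -- no initial forms in degrees `< s`
  have hlow : ∀ i < s, initForms I i = ⊥ := by
    intro i hi
    have := hilbertFn_add I i
    rw [h1 i hi] at this
    exact Submodule.finrank_eq_zero.1 (by omega)
  have hI : ∀ m ≤ s, I ≤ (maxIdeal (0 : Fin n → k)) ^ m := by
    intro m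
    induction m with
    | zero => intro _; simp
    | succ m ih =>
      intro hm f hf
      have h4 := ih (by omega) hf
      have h5 : homogeneousComponent m f ∈ initForms I m := by
        refine ⟨?_, homogeneousComponent_mem m f⟩
        rw [SetLike.mem_coe, Submodule.restrictScalars_mem, Submodule.mem_sup]
        refine ⟨f, hf, homogeneousComponent m f - f, ?_, by ring⟩
        have := Ideal.neg_mem_iff _ |>.2 (sub_hc_mem m f h4)
        rwa [neg_sub] at this
      rw [hlow m (by omega), Submodule.mem_bot] at h5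
      have h6 := sub_hc_mem m f h4
      rwa [h5, sub_zero] at h6
  -- all forms of degree `> s` are initial forms
  have hhigh : ∀ i > s, homogeneousSubmodule (Fin n) k i ≤ initForms I i := by
    intro i hi
    have h4 := hilbertFn_add I i
    rw [h3 i hi, zero_add, ← finrank_homog (k := k)] at h4
    exact (Submodule.eq_of_le_of_finrank_eq (initForms_le I i) h4).ge
  obtain ⟨M, hM⟩ : ∃ M, (maxIdeal (0 : Fin n → k)) ^ M ≤ I := by
    rw [← hrad]
    exact I.exists_radical_pow_le_of_fg (IsNoetherian.noetherian _)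
  have hpow : ∀ j, (maxIdeal (0 : Fin n → k)) ^ (s + 1 + j) ≤ I →
      (maxIdeal (0 : Fin n → k)) ^ (s + 1) ≤ I := by
    intro j
    induction j with
    | zero => exact fun h => h
    | succ j ih =>
      intro h
      replace h : (maxIdeal (0 : Fin n → k)) ^ (s + 1 + j + 1) ≤ I := h
      apply ih
      intro f hf
      have h5 : homogeneousComponent (s + 1 + j) f ∈ I := by
        have h6 := hhigh (s + 1 + j) (by omega) (homogeneousComponent_mem (s + 1 + j) f)
        have h7 : homogeneousComponent (s + 1 + j) f ∈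
          I ⊔ (maxIdeal (0 : Fin n → k)) ^ (s + 1 + j + 1) := h6.1
        rwa [sup_eq_left.2 h] at h7
      have h6 := h (sub_hc_mem (s + 1 + j) f hf)
      have := I.add_mem h6 h5
      rwa [sub_add_cancel] at this
  have hs1 : (maxIdeal (0 : Fin n → k)) ^ (s + 1) ≤ I :=
    hpow M ((Ideal.pow_le_pow_right (by omega)).trans hM)
  refine ⟨initForms I s, initForms_le I s, ?_, ?_⟩
  · have := hilbertFn_add I s
    rw [h2] at this
    omega
  · ext f
    rw [mem_stdIdeal]
    constructor
    · intro hf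
      refine ⟨(mem_pow_iff s f).1 (hI s le_rfl hf), ?_, homogeneousComponent_mem s f⟩
      rw [SetLike.mem_coe, Submodule.restrictScalars_mem]
      apply Ideal.mem_sup_left
      have h5 := hs1 (sub_hc_mem s f (hI s le_rfl hf))
      have := I.sub_mem hf h5
      rwa [sub_sub_cancel] at this
    · rintro ⟨h4, h5⟩
      have h6 : homogeneousComponent s f ∈ I ⊔ (maxIdeal (0 : Fin n → k)) ^ (s + 1) := h5.1
      rw [sup_eq_left.2 hs1] at h6
      have h7 := hs1 (sub_hc_mem s f ((mem_pow_iff s f).2 h4))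
      have := I.add_mem h7 h6
      rwa [sub_add_cancel] at this

theorem pow_le_stdIdeal (s : ℕ) (W : Submodule k (MvPolynomial (Fin n) k)) :
    (maxIdeal (0 : Fin n → k)) ^ (s + 1) ≤ stdIdeal s W := by
  intro f hf
  rw [mem_pow_iff] at hf
  rw [mem_stdIdeal]
  refine ⟨fun i hi => hf i (by omega), ?_⟩
  rw [hf s (by omega)]
  exact W.zero_mem

theorem stdIdeal_le_pow (s : ℕ) (W : Submodule k (MvPolynomial (Fin n) k)) :
    stdIdeal s W ≤ (maxIdeal (0 : Fin n → k)) ^ s := by
  intro f hf
  rw [mem_stdIdeal] at hf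
  rw [mem_pow_iff]
  exact hf.1

theorem radical_of_between (I : Ideal (MvPolynomial (Fin n) k)) (m : ℕ) (v : Fin n → k)
    (h1 : (maxIdeal v) ^ m ≤ I) (h2 : I ≤ maxIdeal v) : I.radical = maxIdeal v := by
  apply le_antisymm
  · exact (Ideal.radical_mono h2).trans_eq (Ideal.IsPrime.radical inferInstance)
  · intro f hf
    exact ⟨m, h1 (Ideal.pow_mem_pow hf m)⟩

theorem stdIdeal_radical (s : ℕ) (hs : 1 ≤ s) (W : Submodule k (MvPolynomial (Fin n) k)) :
    (stdIdeal s W).radical = maxIdeal 0 := by
  refine radical_of_between _ (s + 1) 0 (pow_le_stdIdeal s W) ?_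
  exact (stdIdeal_le_pow s W).trans ((Ideal.pow_le_pow_right hs).trans_eq (pow_one _))

theorem stdIdeal_hilbertFn_lt (s : ℕ) (W : Submodule k (MvPolynomial (Fin n) k)) (i : ℕ)
    (hi : i < s) : hilbertFn (stdIdeal s W) 0 i = n.multichoose i := by
  have h := hilbertFn_add (stdIdeal s W) i
  have h1 : initForms (stdIdeal s W) i = ⊥ := by
    rw [eq_bot_iff]
    rintro g ⟨hg1, hg2⟩
    have h2 : g ∈ (maxIdeal (0 : Fin n → k)) ^ (i + 1) := by
      have h3 : stdIdeal s W ⊔ (maxIdeal (0 : Fin n → k)) ^ (i + 1) ≤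
          (maxIdeal (0 : Fin n → k)) ^ (i + 1) :=
        sup_le ((stdIdeal_le_pow s W).trans (Ideal.pow_le_pow_right (by omega))) le_rfl
      exact h3 hg1
    rw [mem_pow_iff] at h2
    have h3 := h2 i (by omega)
    rw [homogeneousComponent_of_mem hg2, if_pos rfl] at h3
    exact h3
  rw [h1, finrank_bot] at h
  omega

theorem stdIdeal_hilbertFn_gt (s : ℕ) (W : Submodule k (MvPolynomial (Fin n) k)) (i : ℕ)
    (hi : s < i) : hilbertFn (stdIdeal s W) 0 i = 0 := by
  have h := hilbertFn_add (stdIdeal s W) i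
  have h1 : initForms (stdIdeal s W) i = homogeneousSubmodule (Fin n) k i := by
    apply le_antisymm (initForms_le _ _)
    intro g hg
    refine ⟨?_, hg⟩
    rw [SetLike.mem_coe, Submodule.restrictScalars_mem]
    apply Ideal.mem_sup_left
    apply pow_le_stdIdeal
    exact Ideal.pow_le_pow_right (by omega) (homog_mem_pow i g hg)
  rw [h1, finrank_homog] at h
  omega

theorem stdIdeal_hilbertFn_eq (s r : ℕ) (W : Submodule k (MvPolynomial (Fin n) k))
    (hW : W ≤ homogeneousSubmodule (Fin n) k s)
    (hr : Module.finrank k W + r = n.multichoose s) :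
    hilbertFn (stdIdeal s W) 0 s = r := by
  have h := hilbertFn_add (stdIdeal s W) s
  have h1 : initForms (stdIdeal s W) s = W := by
    apply le_antisymm
    · rintro g ⟨hg1, hg2⟩
      have h3 : g ∈ stdIdeal s W := by
        have h4 : stdIdeal s W ⊔ (maxIdeal (0 : Fin n → k)) ^ (s + 1) ≤ stdIdeal s W :=
          sup_le le_rfl (pow_le_stdIdeal s W)
        exact h4 hg1
      rw [mem_stdIdeal, homogeneousComponent_of_mem hg2, if_pos rfl] at h3
      exact h3.2
    · intro g hg
      refine ⟨?_, hW hg⟩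
      rw [SetLike.mem_coe, Submodule.restrictScalars_mem]
      apply Ideal.mem_sup_left
      rw [mem_stdIdeal]
      refine ⟨fun i hi => ?_, ?_⟩
      · rw [homogeneousComponent_of_mem (hW hg), if_neg (by omega)]
      · rw [homogeneousComponent_of_mem (hW hg), if_pos rfl]
        exact hg
  rw [h1] at h
  omega

end Pool.Agent.HilbVC
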