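import Pool.Agent.Hhelper14.HilbStruct

/-!
# Automorphisms of affine space act on the Hilbert scheme; the closed locus of points supported at
one point `v` and containing `𝔪_v^m`
-/

open MvPolynomial TopologicalSpace

namespace Pool.Agent.HilbVC

universe u

variable {k : Type u} [Field k] {n d : ℕ}

section transport

variable (τ : MvPolynomial (Fin n) k ≃ₐ[k] MvPolynomial (Fin n) k)

/-- pull-back of an ideal along an automorphism -/
noncomputable def pull (I : Ideal (MvPolynomial (Fin n) k)) : Ideal (MvPolynomial (Fin n) k) :=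
  I.comap (τ : MvPolynomial (Fin n) k →ₐ[k] MvPolynomial (Fin n) k)

theorem mem_pull (I : Ideal (MvPolynomial (Fin n) k)) (f : MvPolynomial (Fin n) k) :
    f ∈ pull τ I ↔ τ f ∈ I := Iff.rfl

theorem pull_symm_pull (I : Ideal (MvPolynomial (Fin n) k)) : pull τ.symm (pull τ I) = I := by
  ext f
  simp [mem_pull]

theorem pull_pull_symm (I : Ideal (MvPolynomial (Fin n) k)) : pull τ (pull τ.symm I) = I := by
  ext f
  simp [mem_pull]

theorem isFrame_pull_of {B : Fin d → MvPolynomial (Fin n) k}
    {I : Ideal (MvPolynomial (Fin n) k)} (h : IsFrame (fun j => τ (B j)) I) :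
    IsFrame B (pull τ I) ∧
      ∀ f j, coord B (pull τ I) f j = coord (fun j => τ (B j)) I (τ f) j := by
  let l : Fin d → (MvPolynomial (Fin n) k →ₗ[k] k) := fun j =>
    (coordL (fun j => τ (B j)) I j).comp τ.toLinearMap
  have h1 : ∀ f, f ∈ pull τ I ↔ ∀ j, l j f = 0 := by
    intro f
    rw [mem_pull, mem_iff_coord h]
    rfl
  have h2 : ∀ i j, l j (B i) = if i = j then 1 else 0 := fun i j => coord_frame h i j
  exact ⟨frame_of_dual l h1 h2, fun f j => coord_of_dual l h1 h2 f j⟩

theorem isFrame_pull_iff (B : Fin d → MvPolynomial (Fin n) k)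
    (I : Ideal (MvPolynomial (Fin n) k)) :
    IsFrame B (pull τ I) ↔ IsFrame (fun j => τ (B j)) I := by
  constructor
  · intro h
    have h1 : IsFrame (fun j => τ.symm (τ (B j))) (pull τ I) := by simpa using h
    have h2 := (isFrame_pull_of τ.symm h1).1
    rwa [pull_symm_pull] at h2
  · exact fun h => (isFrame_pull_of τ h).1

/-- The action of an automorphism of affine space on the Hilbert scheme. -/
noncomputable def transport (I : HilbPt k n d) : HilbPt k n d :=
  have h : ∃ B : Fin d → MvPolynomial (Fin n) k, IsFrame B (pull τ I.ideal) := by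
    obtain ⟨B, hB⟩ := exists_frame I
    exact ⟨fun j => τ.symm (B j), (isFrame_pull_iff τ _ _).2 (by simpa using hB)⟩
  ⟨pull τ I.ideal, h.choose_spec.finite, h.choose_spec.finrank_eq⟩

@[simp] theorem transport_ideal (I : HilbPt k n d) :
    (transport τ I).ideal = pull τ I.ideal := rfl

theorem HilbPt.ext' {I J : HilbPt k n d} (h : I.ideal = J.ideal) : I = J := by
  cases I; cases J; congr

theorem continuous_transport : Continuous (transport τ : HilbPt k n d → HilbPt k n d) := by
  rw [continuous_generateFrom_iff]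
  rintro _ ⟨B, P, rfl⟩
  have : transport τ ⁻¹' basicOpen B P = (basicOpen (fun j => τ (B j))
      (rename (fun q : MvPolynomial (Fin n) k × Fin d => (τ q.1, q.2)) P) :
        Set (HilbPt k n d)) := by
    ext I
    simp only [basicOpen, Set.mem_preimage, Set.mem_ofPred_eq, transport_ideal, isFrame_pull_iff]
    refine and_congr_right fun h => ?_
    rw [eval_rename]
    have h1 : (fun q : MvPolynomial (Fin n) k × Fin d => coord B (pull τ I.ideal) q.1 q.2) =
        (fun q : MvPolynomial (Fin n) k × Fin d =>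
          coord (fun j => τ (B j)) I.ideal q.1 q.2) ∘ fun q => (τ q.1, q.2) := by
      ext q
      exact (isFrame_pull_of τ h).2 q.1 q.2
    rw [h1]
  rw [this]
  exact isOpen_basicOpen _ _

theorem pull_sup (I J : Ideal (MvPolynomial (Fin n) k)) :
    pull τ (I ⊔ J) = pull τ I ⊔ pull τ J := by
  apply le_antisymm
  · intro f hf
    rw [mem_pull, Submodule.mem_sup] at hf
    obtain ⟨y, hy, z, hz, h⟩ := hf
    have h1 : f = τ.symm y + τ.symm z := by
      rw [← map_add, h]; simp
    rw [h1]
    exact Submodule.add_mem_sup (by rw [mem_pull]; simpa using hy)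
      (by rw [mem_pull]; simpa using hz)
  · exact sup_le (fun f hf => Ideal.mem_sup_left hf) (fun f hf => Ideal.mem_sup_right hf)

theorem pull_eq_map (I : Ideal (MvPolynomial (Fin n) k)) :
    pull τ I = I.map (τ.symm : MvPolynomial (Fin n) k →ₐ[k] MvPolynomial (Fin n) k) := by
  apply le_antisymm
  · intro f hf
    have := Ideal.mem_map_of_mem (τ.symm : MvPolynomial (Fin n) k →ₐ[k] MvPolynomial (Fin n) k)
      ((mem_pull τ I f).1 hf)
    have h2 : (τ.symm : MvPolynomial (Fin n) k →ₐ[k] MvPolynomial (Fin n) k) (τ f) = f := by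
      simp
    rwa [h2] at this
  · rw [Ideal.map_le_iff_le_comap]
    intro f hf
    change τ (τ.symm f) ∈ I
    simpa using hf

theorem pull_pow (I : Ideal (MvPolynomial (Fin n) k)) (m : ℕ) :
    pull τ (I ^ m) = (pull τ I) ^ m := by
  rw [pull_eq_map, pull_eq_map, Ideal.map_pow]

theorem pull_mono {I J : Ideal (MvPolynomial (Fin n) k)} (h : I ≤ J) : pull τ I ≤ pull τ J :=
  fun _ hf => h hf

theorem pull_radical (I : Ideal (MvPolynomial (Fin n) k)) :
    (pull τ I).radical = pull τ I.radical := by
  ext f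
  simp only [mem_pull, Ideal.mem_radical_iff, map_pow]

theorem hilbertFn_pull (I : Ideal (MvPolynomial (Fin n) k)) (v w : Fin n → k)
    (h : pull τ (maxIdeal w) = maxIdeal v) (i : ℕ) :
    hilbertFn (pull τ I) v i = hilbertFn I w i := by
  let φ : (MvPolynomial (Fin n) k ⧸ pull τ I) ≃ₐ[k] (MvPolynomial (Fin n) k ⧸ I) :=
    Ideal.quotientEquivAlg (pull τ I) I τ (by
      apply le_antisymm
      · intro f hf
        have h1 : τ.symm f ∈ pull τ I := by rw [mem_pull]; simpa using hf
        have h2 := Ideal.mem_map_of_mem (τ : MvPolynomial (Fin n) k →+* MvPolynomial (Fin n) k) h1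
        have h3 : (τ : MvPolynomial (Fin n) k →+* MvPolynomial (Fin n) k) (τ.symm f) = f := by
          simp
        rwa [h3] at h2
      · rw [Ideal.map_le_iff_le_comap]
        intro f hf
        exact hf)
  have hφ : ∀ f, φ (Ideal.Quotient.mk _ f) = Ideal.Quotient.mk _ (τ f) := fun f => rfl
  have hP : ∀ i, (maxPow I w i).comap φ.toLinearEquiv.toLinearMap = maxPow (pull τ I) v i := by
    intro i
    ext x
    obtain ⟨f, rfl⟩ := Ideal.Quotient.mk_surjective x
    rw [mem_maxPow, Submodule.mem_comap]
    change φ (Ideal.Quotient.mk _ f) ∈ _ ↔ _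
    rw [hφ, mem_maxPow, ← mem_pull, pull_sup, pull_pow, h]
  have hquot : ∀ (P P' : Submodule k (MvPolynomial (Fin n) k ⧸ I)),
      Module.finrank k ((P.comap φ.toLinearEquiv.toLinearMap) ⧸
        (P'.comap φ.toLinearEquiv.toLinearMap).submoduleOf
          (P.comap φ.toLinearEquiv.toLinearMap)) =
      Module.finrank k (P ⧸ P'.submoduleOf P) := by
    intro P P'
    refine LinearEquiv.finrank_eq (Submodule.Quotient.equiv _ _
      (φ.toLinearEquiv.ofSubmodule' P) ?_)
    ext ⟨x, hx⟩
    constructor
    · rintro ⟨y, hy, h3⟩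
      rw [← h3]
      exact hy
    · intro hx'
      refine ⟨(φ.toLinearEquiv.ofSubmodule' P).symm ⟨x, hx⟩, ?_, by simp⟩
      have h4 : φ (((φ.toLinearEquiv.ofSubmodule' P).symm ⟨x, hx⟩ :
        P.comap φ.toLinearEquiv.toLinearMap) : MvPolynomial (Fin n) k ⧸ pull τ I) = x := by
        have := congrArg Subtype.val ((φ.toLinearEquiv.ofSubmodule' P).apply_symm_apply ⟨x, hx⟩)
        exact this
      have hx2 : x ∈ P' := hx'
      rw [← h4] at hx2
      exact hx2
  rw [hilbertFn, hilbertFn, ← hP i, ← hP (i + 1)]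
  exact hquot _ _

end transport

/-- translation automorphism `x_i ↦ x_i + v_i` -/
noncomputable def shift (v : Fin n → k) : MvPolynomial (Fin n) k ≃ₐ[k] MvPolynomial (Fin n) k :=
  AlgEquiv.ofAlgHom (aeval fun i => X i + C (v i)) (aeval fun i => X i - C (v i))
    (by ext i; simp) (by ext i; simp)

theorem shift_apply (v : Fin n → k) (f : MvPolynomial (Fin n) k) :
    shift v f = aeval (fun i => X i + C (v i)) f := rfl

theorem eval_shift (v w : Fin n → k) (f : MvPolynomial (Fin n) k) :
    eval w (shift v f) = eval (w + v) f := by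
  induction f using MvPolynomial.induction_on with
  | C a => simp [shift_apply]
  | add p q hp hq => rw [map_add, map_add, hp, hq, map_add]
  | mul_X p i hp => rw [map_mul, map_mul, hp, map_mul]; simp [shift_apply]

theorem pull_shift_maxIdeal (v w : Fin n → k) :
    pull (shift v) (maxIdeal w) = maxIdeal (w + v) := by
  ext f
  rw [mem_pull, mem_maxIdeal, mem_maxIdeal, eval_shift]

theorem maxIdeal_le_iff (v w : Fin n → k) : maxIdeal v ≤ maxIdeal w ↔ v = w := by
  constructor
  · intro h
    ext i
    have h1 : (X i - C (v i) : MvPolynomial (Fin n) k) ∈ maxIdeal v :=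
      Ideal.subset_span ⟨i, rfl⟩
    have h2 := h h1
    rw [mem_maxIdeal] at h2
    simp only [map_sub, eval_X, eval_C] at h2
    exact (sub_eq_zero.1 h2).symm
  · rintro rfl; exact le_rfl

/-! ### the closed locus -/

/-- the trace of multiplication by `x_i` on `S / I` -/
noncomputable def trX (I : HilbPt k n d) (i : Fin n) : k :=
  Algebra.trace k (MvPolynomial (Fin n) k ⧸ I.ideal) (Ideal.Quotient.mk I.ideal (X i))

/-- regular functions on the chart `U_B` -/
def Reg (B : Fin d → MvPolynomial (Fin n) k) (G : HilbPt k n d → k) : Prop :=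
  ∃ P : MvPolynomial (MvPolynomial (Fin n) k × Fin d) k, ∀ I : HilbPt k n d,
    IsFrame B I.ideal → G I = eval (fun q => coord B I.ideal q.1 q.2) P

theorem Reg.isOpen {B : Fin d → MvPolynomial (Fin n) k} {G : HilbPt k n d → k} (h : Reg B G) :
    IsOpen {I : HilbPt k n d | IsFrame B I.ideal ∧ G I ≠ 0} := by
  obtain ⟨P, hP⟩ := h
  have : {I : HilbPt k n d | IsFrame B I.ideal ∧ G I ≠ 0} = basicOpen B P := by
    ext I
    simp only [basicOpen, Set.mem_ofPred_eq]
    exact and_congr_right fun h => by rw [hP I h]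
  rw [this]
  exact isOpen_basicOpen _ _

theorem Reg.coord (B : Fin d → MvPolynomial (Fin n) k) (f : MvPolynomial (Fin n) k) (j : Fin d) :
    Reg B (fun I : HilbPt k n d => HilbVC.coord B I.ideal f j) :=
  ⟨X (f, j), fun I _ => by simp⟩

theorem Reg.sub {B : Fin d → MvPolynomial (Fin n) k} {G G' : HilbPt k n d → k} (h : Reg B G)
    (h' : Reg B G') : Reg B (fun I => G I - G' I) := by
  obtain ⟨P, hP⟩ := h
  obtain ⟨P', hP'⟩ := h'
  exact ⟨P - P', fun I hI => by simp only [hP I hI, hP' I hI, map_sub]⟩

theorem Reg.mul {B : Fin d → MvPolynomial (Fin n) k} {G G' : HilbPt k n d → k} (h : Reg B G)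
    (h' : Reg B G') : Reg B (fun I => G I * G' I) := by
  obtain ⟨P, hP⟩ := h
  obtain ⟨P', hP'⟩ := h'
  exact ⟨P * P', fun I hI => by simp only [hP I hI, hP' I hI, map_mul]⟩

theorem Reg.const (B : Fin d → MvPolynomial (Fin n) k) (a : k) :
    Reg B (fun _ : HilbPt k n d => a) := ⟨C a, fun I _ => by simp⟩

theorem trX_eq {B : Fin d → MvPolynomial (Fin n) k} {I : HilbPt k n d} (h : IsFrame B I.ideal)
    (i : Fin n) : trX I i = ∑ j, coord B I.ideal (X i * B j) j := by
  rw [trX, Algebra.trace_eq_matrix_trace (frameBasis h), Matrix.trace]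
  refine Finset.sum_congr rfl fun j _ => ?_
  rw [Matrix.diag_apply, Algebra.leftMulMatrix_eq_repr_mul, frameBasis_apply, ← map_mul,
    coord_eq h]

theorem Reg.trX (B : Fin d → MvPolynomial (Fin n) k) (i : Fin n) :
    Reg B (fun I : HilbPt k n d => HilbVC.trX I i) := by
  refine ⟨∑ j, X (X i * B j, j), fun I hI => ?_⟩
  simp only [trX_eq hI, map_sum, eval_X]

/-- the product `∏ (x_i - tr(x_i)/d)` along a word -/
noncomputable def wordProd (I : HilbPt k n d) (w : List (Fin n)) : MvPolynomial (Fin n) k :=
  (w.map fun i => X i - C (trX I i * (d : k)⁻¹)).prod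

theorem Reg.wordProd (B : Fin d → MvPolynomial (Fin n) k) (w : List (Fin n))
    (f : MvPolynomial (Fin n) k) (j : Fin d) :
    Reg B (fun I : HilbPt k n d => HilbVC.coord B I.ideal (f * HilbVC.wordProd I w) j) := by
  induction w generalizing f with
  | nil => simpa [HilbVC.wordProd] using Reg.coord B f j
  | cons i w ih =>
    have h1 := (ih (f * X i)).sub (((Reg.trX B i).mul (Reg.const B (d : k)⁻¹)).mul (ih f))
    convert h1 using 2 with I
    have : f * HilbVC.wordProd I (i :: w) = (f * X i) * HilbVC.wordProd I w -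
        (HilbVC.trX I i * (d : k)⁻¹) • (f * HilbVC.wordProd I w) := by
      rw [HilbVC.wordProd, List.map_cons, List.prod_cons, smul_eq_C_mul, HilbVC.wordProd]
      ring
    rw [this, ← coordL_apply, map_sub, map_smul]
    rfl

/-- The locus of `I` such that `𝔪_v^m ⊆ I` for some `v`. -/
def suppPow (k : Type u) [Field k] (n d m : ℕ) : Set (HilbPt k n d) :=
  {I | ∃ v : Fin n → k, (maxIdeal v) ^ m ≤ I.ideal}

theorem pow_le_of_words {g : Fin n → MvPolynomial (Fin n) k} (m : ℕ)
    (I : Ideal (MvPolynomial (Fin n) k))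
    (h : ∀ w : List (Fin n), w.length = m → (w.map g).prod ∈ I) :
    (Ideal.span (Set.range g)) ^ m ≤ I := by
  induction m generalizing I with
  | zero =>
    have := h [] rfl
    simp only [List.map_nil, List.prod_nil] at this
    rw [(Ideal.eq_top_iff_one I).2 this]
    exact le_top
  | succ m ih =>
    rw [pow_succ', Ideal.mul_le]
    intro a ha b hb
    induction ha using Submodule.span_induction with
    | mem x hx =>
      obtain ⟨i, rfl⟩ := hx
      let J : Ideal (MvPolynomial (Fin n) k) := Submodule.comap (LinearMap.mulLeft _ (g i)) I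
      have hJ : (Ideal.span (Set.range g)) ^ m ≤ J := by
        apply ih
        intro w hw
        have := h (i :: w) (by simp [hw])
        rw [List.map_cons, List.prod_cons] at this
        exact this
      exact hJ hb
    | zero => rw [zero_mul]; exact I.zero_mem
    | add x y _ _ hx hy => rw [add_mul]; exact I.add_mem hx hy
    | smul a x _ hx => rw [smul_eq_mul, mul_assoc]; exact I.mul_mem_left _ hx

theorem suppPow_iff (m : ℕ) (hd : (d : k) ≠ 0) (I : HilbPt k n d) :
    I ∈ suppPow k n d m ↔ ∀ w : List (Fin n), w.length = m → wordProd I w ∈ I.ideal := by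
  constructor
  · rintro ⟨v, hv⟩ w rfl
    have := I.finite
    have h1 : ∀ i, trX I i * (d : k)⁻¹ = v i := by
      intro i
      have h2 : IsNilpotent (Ideal.Quotient.mk I.ideal (X i - C (v i))) := by
        refine ⟨w.length, ?_⟩
        rw [← map_pow, Ideal.Quotient.eq_zero_iff_mem]
        have h6 : (X i - C (v i) : MvPolynomial (Fin n) k) ∈ maxIdeal v :=
          Ideal.subset_span ⟨i, rfl⟩
        exact hv (Ideal.pow_mem_pow h6 _)
      have h3 : Algebra.trace k (MvPolynomial (Fin n) k ⧸ I.ideal)
          (Ideal.Quotient.mk I.ideal (X i - C (v i))) = 0 := by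
        have h4 := Algebra.isNilpotent_trace_of_isNilpotent (R := k) h2
        exact h4.eq_zero
      rw [map_sub, map_sub, sub_eq_zero] at h3
      have h5 : Ideal.Quotient.mk I.ideal (C (v i)) =
          algebraMap k (MvPolynomial (Fin n) k ⧸ I.ideal) (v i) := rfl
      rw [h5, Algebra.trace_algebraMap, I.finrank_eq, nsmul_eq_mul] at h3
      rw [trX, h3, mul_comm, ← mul_assoc, inv_mul_cancel₀ hd, one_mul]
    have h2 : wordProd I w = (w.map fun i => X i - C (v i)).prod := by
      rw [wordProd]
      simp_rw [h1]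
    rw [h2]
    apply hv
    clear h2 hv
    induction w with
    | nil => simp
    | cons i w ih =>
      rw [List.map_cons, List.prod_cons, List.length_cons, pow_succ']
      exact Ideal.mul_mem_mul (Ideal.subset_span ⟨i, rfl⟩) ih
  · intro h
    exact ⟨fun i => trX I i * (d : k)⁻¹, pow_le_of_words m _ h⟩

theorem isClosed_suppPow (m : ℕ) (hd : (d : k) ≠ 0) : IsClosed (suppPow k n d m) := by
  rw [← isOpen_compl_iff]
  have : (suppPow k n d m)ᶜ = ⋃ (w : List (Fin n)) (_ : w.length = m)
      (B : Fin d → MvPolynomial (Fin n) k) (j : Fin d),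
      {I : HilbPt k n d | IsFrame B I.ideal ∧ coord B I.ideal (1 * wordProd I w) j ≠ 0} := by
    ext I
    rw [Set.mem_compl_iff, suppPow_iff m hd]
    simp only [Set.mem_iUnion, Set.mem_ofPred_eq, not_forall, exists_prop]
    constructor
    · rintro ⟨w, hw, h⟩
      obtain ⟨B, hB⟩ := exists_frame I
      rw [mem_iff_coord hB] at h
      push Not at h
      obtain ⟨j, hj⟩ := h
      exact ⟨w, hw, B, j, hB, by rwa [one_mul]⟩
    · rintro ⟨w, hw, B, j, hB, hj⟩
      refine ⟨w, hw, fun h => hj ?_⟩
      rw [one_mul]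
      exact (mem_iff_coord hB _).1 h j
  rw [this]
  exact isOpen_iUnion fun w => isOpen_iUnion fun _ => isOpen_iUnion fun B =>
    isOpen_iUnion fun j => (Reg.wordProd B w 1 j).isOpen

end Pool.Agent.HilbVC
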